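import Pool.Agent.D0H99.FT.Dn

/-!
A positive proportion of the tuples of primes.
-/

set_option autoImplicit false
set_option linter.all false

open Polynomial IsDedekindDomain Filter

namespace Pool.Agent.D0H99.FT

open Finset
open Pool.Agent.Y164.SZ
open Pool.Agent.Y164.PS (Fam Pr mem_Pr card_Pr_ge)
open Pool.Agent.Y713.SE (pencil tDat)
open Pool.Agent.Y713.Jac (ShaPrimaryTrivial ShaTateTrivial)

theorem zeta_data {ℓ : ℕ} (hℓ : ℓ.Prime) {k : Type} [Field k] [Finite k]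
    (hlk : ℓ ∣ Nat.card k - 1) : ((ℓ : ℕ) : k) ≠ 0 ∧ ∃ ζ : k, IsPrimitiveRoot ζ ℓ := by
  classical
  letI : Fintype k := Fintype.ofFinite k
  have hcard : Nat.card k = Fintype.card k := Nat.card_eq_fintype_card
  rw [hcard] at hlk
  have hq1 : 1 < Fintype.card k := Fintype.one_lt_card
  constructor
  · intro h
    obtain ⟨r, hr⟩ := hlk
    have h1 : ((Fintype.card k - 1 : ℕ) : k) = 0 := by rw [hr, Nat.cast_mul, h, zero_mul]
    rw [Nat.cast_sub hq1.le, FiniteField.cast_card_eq_zero, Nat.cast_one, zero_sub] at h1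
    exact one_ne_zero (neg_eq_zero.1 h1)
  · obtain ⟨g, hg⟩ := IsCyclic.exists_generator (α := kˣ)
    have ho : orderOf g = Fintype.card k - 1 := by
      rw [orderOf_eq_card_of_forall_mem_zpowers hg, Nat.card_eq_fintype_card, Fintype.card_units]
    obtain ⟨r, hr⟩ := hlk
    have hr0 : 0 < Fintype.card k - 1 := by omega
    have h1 : IsPrimitiveRoot g (Fintype.card k - 1) := ho ▸ IsPrimitiveRoot.orderOf g
    have h3 : IsPrimitiveRoot (g ^ r) ℓ := by
      exact h1.pow hr0 (by rw [hr, mul_comm])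
    exact ⟨((g ^ r : kˣ) : k), IsPrimitiveRoot.coe_units_iff.2 h3⟩

theorem positive {ℓ : ℕ} (hℓ : ℓ.Prime) {k : Type} [Field k] [Finite k]
    (hneg : ∃ z : k, z ^ ℓ = -1) (h2 : (2 : k) ≠ 0) (hlk : ℓ ∣ Nat.card k - 1) {h g : k[X]}
    (HP : Pen ℓ h g) (r : ℕ) (Q : (Fin r → k[X]) → Prop)
    (hQ : ∀ d : Fin r → k[X], (∀ i, (d i).Monic ∧ Irreducible (d i)) →
      (∀ (c : k) (e : Fin r → ℕ), c ≠ 0 → ShaPrimaryTrivial ℓ
        (C (algebraMap k[X] (RatFunc k) (C c * ∏ j, d j ^ e j)) *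
          pencil (RatFunc k) h g) k[X]) → Q d)
    {ε : ℝ} (hε : 0 < ε) : ∀ᶠ n : ℕ in atTop, ℓ ∣ n →
      (((1 : ℝ) - 1 / ℓ) ^ (r * h.natDegree) / (ℓ : ℝ) ^ (r * (r - 1) / 2) - ε) *
        (({d : Fin r → k[X] | ∀ i, (d i).Monic ∧ Irreducible (d i) ∧
          (d i).natDegree = n}).ncard : ℝ) ≤
        (({d : Fin r → k[X] | (∀ i, (d i).Monic ∧ Irreducible (d i) ∧
          (d i).natDegree = n) ∧ Q d}).ncard : ℝ) := by
  classical
  haveI : Fact ℓ.Prime := ⟨hℓ⟩
  obtain ⟨hlk0, ζ, hζ⟩ := zeta_data hℓ hlk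
  letI : Fintype k := Fintype.ofFinite k
  have hchar : ringChar k ≠ 2 := by
    intro h
    apply h2
    have := ringChar.Nat.cast_ringChar (R := k)
    rw [h] at this
    exact_mod_cast this
  have hcard : Nat.card k = Fintype.card k := Nat.card_eq_fintype_card
  rw [hcard] at hlk
  have S : SYM0 ℓ k := sym0 hneg hlk
  have S' : SYM ℓ k := chr hlk hchar S
  obtain ⟨c, P, HN⟩ := HP.nodes
  have hmain := main_density S' hchar HN.hPm HN.hPi HN.hPinj HN.hPd HP.hg r ε hε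
  filter_upwards [hmain] with n hn hln
  have h1 := hn hln
  rw [cr_eq hℓ.one_lt.le] at h1
  have hA : {d : Fin r → k[X] | ∀ i, (d i).Monic ∧ Irreducible (d i) ∧ (d i).natDegree = n} =
      ((Fintype.piFinset fun _ : Fin r => Pr k n : Finset (Fin r → k[X])) :
        Set (Fin r → k[X])) := by
    ext d
    rw [Set.mem_setOf_eq, mem_coe, Fintype.mem_piFinset]
    exact forall_congr' fun i => (mem_Pr (k := k)).symm
  rw [hA, Set.ncard_coe_finset, Fintype.card_piFinset, prod_const, card_univ, Fintype.card_fin,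
    Nat.cast_pow]
  refine h1.trans ?_
  have hsub : ((Gt ℓ P r n : Finset (Fin r → k[X])) : Set (Fin r → k[X])) ⊆
      {d : Fin r → k[X] | (∀ i, (d i).Monic ∧ Irreducible (d i) ∧ (d i).natDegree = n) ∧ Q d} := by
    intro d hd
    rw [mem_coe, Gt, mem_filter, Fintype.mem_piFinset] at hd
    obtain ⟨hd1, hd2, hd3, hd4⟩ := hd
    have hd5 : ∀ i, (d i).Monic ∧ Irreducible (d i) ∧ (d i).natDegree = n := fun i =>
      mem_Pr.1 (hd1 i)
    refine ⟨hd5, hQ d (fun i => ⟨(hd5 i).1, (hd5 i).2.1⟩) fun c e hc => ?_⟩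
    exact family S hneg hlk0 hζ HP HN hd2
      (fun j => ⟨(hd5 j).1, (hd5 j).2.1, by rw [(hd5 j).2.2]; exact hln⟩) hd4 hd3 hc univ e
  have hfin : {d : Fin r → k[X] | (∀ i, (d i).Monic ∧ Irreducible (d i) ∧
      (d i).natDegree = n) ∧ Q d}.Finite := by
    refine Set.Finite.subset (Finset.finite_toSet
      (Fintype.piFinset fun _ : Fin r => Pr k n : Finset (Fin r → k[X]))) ?_
    rw [← hA]
    intro d hd
    exact hd.1
  have h3 := Set.ncard_le_ncard hsub hfin
  rw [Set.ncard_coe_finset] at h3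
  exact_mod_cast h3

end Pool.Agent.D0H99.FT
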