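import Pool.Agent.D0H99.FT.Ex

/-!
The number of primes with prescribed residue symbols.
-/

set_option autoImplicit false
set_option linter.all false

open Polynomial IsDedekindDomain

namespace Pool.Agent.D0H99.FT

open Finset
open Pool.Agent.Y164.SZ
open Pool.Agent.Y164.PS (Fam Pr mem_Pr card_Pr_ge)

section
variable {ℓ : ℕ} [hℓ : Fact ℓ.Prime]
variable {k : Type} [Field k] [Fintype k] [DecidableEq k] {κ : Type} [Fintype κ] [DecidableEq κ]

theorem norm_lc (f g : k[X]) : ‖lc ℓ f g‖ ≤ 1 := by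
  unfold lc
  split_ifs
  · rw [norm_zero]; exact zero_le_one
  · rw [norm_std]

/-- the number of primes of degree `n` with prescribed symbols -/
theorem count_one (S : SYM ℓ k) {R : κ → k[X]} (hR : Fam R) (b : κ → ZMod ℓ) {n : ℕ} (hn : 1 ≤ n)
    {W : ℕ} (hW : ∑ x, (R x).natDegree ≤ W) :
    ((Pr k n).card : ℝ) / (Fintype.card (κ → ZMod ℓ) : ℝ) -
      ((5 * (ℓ * W : ℕ) + 2) * (Real.sqrt (Fintype.card k)) ^ n + Fintype.card κ) ≤
      (((Pr k n).filter fun x => (∀ y, R y ≠ x) ∧ ∀ y, L ℓ (R y) x = b y).card : ℝ) := by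
  classical
  obtain ⟨s, hs⟩ : ∃ s : ℝ, s = Real.sqrt (Fintype.card k) := ⟨_, rfl⟩
  have hs0 : 0 ≤ s := hs ▸ Real.sqrt_nonneg _
  obtain ⟨P', hP'⟩ : ∃ P' : Finset k[X], P' = (Pr k n).filter (fun x => ∀ y, R y ≠ x) := ⟨_, rfl⟩
  obtain ⟨B, hB⟩ : ∃ B : Finset k[X], B = P'.filter (fun x => ∀ y, L ℓ (R y) x = b y) := ⟨_, rfl⟩
  have hBe : ((Pr k n).filter fun x => (∀ y, R y ≠ x) ∧ ∀ y, L ℓ (R y) x = b y) = B := by
    rw [hB, hP', filter_filter]
  rw [hBe]
  have hPP : P' ⊆ Pr k n := by rw [hP']; exact filter_subset _ _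
  have hsub : Pr k n \ P' ⊆ univ.image R := by
    intro x hx
    rw [mem_sdiff, hP', mem_filter, not_and] at hx
    have h1 := hx.2 hx.1
    push Not at h1
    obtain ⟨y, hy⟩ := h1
    exact mem_image.2 ⟨y, mem_univ _, hy⟩
  have hcd : (Pr k n \ P').card ≤ Fintype.card κ :=
    (card_le_card hsub).trans (card_image_le.trans (by rw [card_univ]))
  have hcP : ((Pr k n).card : ℝ) - Fintype.card κ ≤ (P'.card : ℝ) := by
    have h1 : (Pr k n \ P').card + P'.card = (Pr k n).card := card_sdiff_add_card_eq_card hPP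
    have h2 : ((Pr k n \ P').card : ℝ) + P'.card = (Pr k n).card := by exact_mod_cast h1
    have h3 : ((Pr k n \ P').card : ℝ) ≤ Fintype.card κ := by exact_mod_cast hcd
    linarith
  -- coprimality
  have hcop : ∀ P ∈ P', ∀ x, IsCoprime (R x) P := by
    intro P hP x
    rw [hP', mem_filter, mem_Pr] at hP
    rw [isCoprime_comm, hP.1.2.1.coprime_iff_not_dvd]
    intro h
    exact hP.2 x (eq_of_monic_of_associated (hR.mon x) hP.1.1
      ((hP.1.2.1.associated_of_dvd (hR.irr x) h).symm))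
  let M : (κ → ZMod ℓ) → k[X] := fun u => ∏ x, R x ^ (u x).val
  have hL : ∀ u : κ → ZMod ℓ, ∀ P ∈ P',
      lc ℓ (M u) P = (ZMod.stdAddChar (∑ x, u x * L ℓ (R x) P) : ℂ) := by
    intro u P hP
    have hP0 : P ≠ 0 := (mem_Pr.1 (hPP hP)).1.ne_zero
    rw [S.lc_cop _ _ hP0 (IsCoprime.prod_left fun x _ => (hcop P hP x).pow_left)]
    congr 1
    rw [S.L_prod_left κ univ _ P hP0 (fun x _ => pow_ne_zero _ (hR.mon x).ne_zero)
      (fun x _ => (hcop P hP x).pow_left)]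
    refine sum_congr rfl fun x _ => ?_
    rw [Pool.Agent.Y547.SZ.Rep.L_pow S.toSYM0 hP0 (hR.mon x).ne_zero (hcop P hP x),
      ZMod.natCast_zmod_val]
  obtain ⟨Z, hZ⟩ : ∃ Z : ℝ, Z = (Fintype.card (κ → ZMod ℓ) : ℝ) := ⟨_, rfl⟩
  have hZ1 : 1 ≤ Z := by
    rw [hZ]
    exact_mod_cast Fintype.card_pos
  -- the sum
  have hz : ∑ P ∈ P', ∑ u : κ → ZMod ℓ,
      (ZMod.stdAddChar (∑ x, u x * (L ℓ (R x) P - b x)) : ℂ) = (Fintype.card (κ → ZMod ℓ) : ℂ) *
        B.card := by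
    have h1 : ∀ P ∈ P', ∑ u : κ → ZMod ℓ,
      (ZMod.stdAddChar (∑ x, u x * (L ℓ (R x) P - b x)) : ℂ) =
        if ∀ y, L ℓ (R y) P = b y then (Fintype.card (κ → ZMod ℓ) : ℂ) else 0 := by
      intro P _
      split_ifs with h
      · have h2 : ∀ u ∈ (univ : Finset (κ → ZMod ℓ)),
            (ZMod.stdAddChar (∑ x, u x * (L ℓ (R x) P - b x)) : ℂ) = 1 := by
          intro u _
          rw [sum_eq_zero (fun x _ => by rw [h x, sub_self, mul_zero]), AddChar.map_zero_eq_one]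
        rw [sum_congr rfl h2, sum_const, nsmul_eq_mul, mul_one, card_univ]
      · push Not at h
        obtain ⟨x, hx⟩ := h
        exact orth _ ⟨x, sub_ne_zero.2 hx⟩
    rw [sum_congr rfl h1, ← sum_filter, ← hB, sum_const, nsmul_eq_mul, mul_comm]
  rw [sum_comm] at hz
  have hsp : ∀ u : κ → ZMod ℓ, ∑ P ∈ P',
      (ZMod.stdAddChar (∑ x, u x * (L ℓ (R x) P - b x)) : ℂ) =
      ZMod.stdAddChar (- ∑ x, u x * b x) * ∑ P ∈ P', lc ℓ (M u) P := by
    intro u
    rw [mul_sum]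
    refine sum_congr rfl fun P hP => ?_
    rw [hL u P hP, ← AddChar.map_add_eq_mul]
    congr 1
    rw [neg_add_eq_sub, ← sum_sub_distrib]
    exact sum_congr rfl fun x _ => by ring
  rw [← add_sum_erase univ _ (mem_univ (0 : κ → ZMod ℓ))] at hz
  have h0 : ∑ P ∈ P', (ZMod.stdAddChar (∑ x, (0 : κ → ZMod ℓ) x *
      (L ℓ (R x) P - b x)) : ℂ) = P'.card := by
    have : ∀ P ∈ P', (ZMod.stdAddChar (∑ x, (0 : κ → ZMod ℓ) x *
      (L ℓ (R x) P - b x)) : ℂ) = 1 := by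
      intro P _
      rw [sum_eq_zero (fun x _ => by rw [Pi.zero_apply, zero_mul]), AddChar.map_zero_eq_one]
    rw [sum_congr rfl this, sum_const, nsmul_eq_mul, mul_one]
  rw [h0] at hz
  have hbd : ∀ u ∈ univ.erase (0 : κ → ZMod ℓ), ‖∑ P ∈ P', lc ℓ (M u) P‖ ≤
      (5 * (ℓ * W : ℕ) + 2) * s ^ n + Fintype.card κ := by
    intro u hu
    have hu0 : u ≠ 0 := ne_of_mem_erase hu
    have hMm : (M u).Monic := monic_prod_of_monic _ _ fun x _ => (hR.mon x).pow _
    let Sp : Finset κ := univ.filter fun x => u x ≠ 0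
    have hSp : Sp.Nonempty := by
      obtain ⟨x, hx⟩ := Function.ne_iff.1 hu0
      exact ⟨x, mem_filter.2 ⟨mem_univ _, hx⟩⟩
    have hMS : M u = ∏ x ∈ Sp, R x ^ (u x).val := by
      change ∏ x, R x ^ (u x).val = _
      rw [prod_filter]
      refine prod_congr rfl fun x _ => ?_
      by_cases hx : u x = 0
      · rw [if_neg (not_not.2 hx), hx, ZMod.val_zero, pow_zero]
      · rw [if_pos hx]
    have hpos : ∀ x ∈ Sp, 0 < (u x).val ∧ (u x).val < ℓ := by
      intro x hx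
      refine ⟨Nat.pos_of_ne_zero fun h => (mem_filter.1 hx).2 ?_, ZMod.val_lt _⟩
      exact (ZMod.val_eq_zero _).1 h
    have hnp : ∀ (c : k) (h : k[X]), M u ≠ C c * h ^ ℓ := by
      intro c h
      rw [hMS]
      exact prod_not_pow ℓ Sp hSp R _ hpos (fun x _ => hR.mon x) (fun x _ => hR.irr x)
        (fun x _ y _ e => hR.inj e) c h
    have hMd : (M u).natDegree = ∑ x, (u x).val * (R x).natDegree := by
      change (∏ x, R x ^ (u x).val).natDegree = _
      rw [natDegree_prod_of_monic _ _ fun x _ => (hR.mon x).pow _]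
      exact sum_congr rfl fun x _ => (hR.mon x).natDegree_pow _
    have hM1 : 1 ≤ (M u).natDegree := by
      rw [hMd]
      obtain ⟨x, hx⟩ := hSp
      have h3 : 1 ≤ (u x).val * (R x).natDegree :=
        Nat.mul_pos (hpos x hx).1 (hR.irr x).natDegree_pos
      exact h3.trans (single_le_sum (f := fun x => (u x).val * (R x).natDegree)
        (fun _ _ => Nat.zero_le _) (mem_univ x))
    have hMW : (M u).natDegree ≤ ℓ * W := by
      rw [hMd]
      refine le_trans ?_ (Nat.mul_le_mul_left ℓ hW)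
      rw [mul_sum]
      exact sum_le_sum fun x _ => Nat.mul_le_mul_right _ (ZMod.val_lt _).le
    have h3 := S.char_sum (M u) hMm hM1 hnp n hn
    rw [← hs] at h3
    have h4 : ((M u).natDegree : ℝ) ≤ ((ℓ * W : ℕ) : ℝ) := by exact_mod_cast hMW
    have h5 : ‖∑ P ∈ Pr k n, lc ℓ (M u) P‖ ≤ (5 * (ℓ * W : ℕ) + 2) * s ^ n := by
      have h6 : (1 : ℝ) ≤ n := by exact_mod_cast hn
      calc ‖∑ P ∈ Pr k n, lc ℓ (M u) P‖ = 1 * ‖∑ P ∈ Pr k n, lc ℓ (M u) P‖ := (one_mul _).symm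
        _ ≤ n * ‖∑ P ∈ Pr k n, lc ℓ (M u) P‖ := mul_le_mul_of_nonneg_right h6 (norm_nonneg _)
        _ ≤ (5 * (M u).natDegree + 2) * s ^ n := h3
        _ ≤ _ := mul_le_mul_of_nonneg_right (by linarith) (pow_nonneg hs0 _)
    have h6 : ∑ P ∈ P', lc ℓ (M u) P = ∑ P ∈ Pr k n, lc ℓ (M u) P -
        ∑ P ∈ Pr k n \ P', lc ℓ (M u) P := by
      rw [eq_sub_iff_add_eq, add_comm]
      exact sum_sdiff hPP
    rw [h6]
    refine (norm_sub_le _ _).trans (add_le_add h5 ?_)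
    refine (norm_sum_le _ _).trans ((sum_le_sum fun P _ => norm_lc _ _).trans ?_)
    rw [sum_const, nsmul_eq_mul, mul_one]
    exact_mod_cast hcd
  -- conclusion
  have hmain : (P'.card : ℝ) ≤ Z * B.card + (Z - 1) * ((5 * (ℓ * W : ℕ) + 2) * s ^ n +
      Fintype.card κ) := by
    have h1 : (P'.card : ℂ) = (Fintype.card (κ → ZMod ℓ) : ℂ) * B.card -
        ∑ u ∈ univ.erase (0 : κ → ZMod ℓ), ∑ P ∈ P',
          (ZMod.stdAddChar (∑ x, u x * (L ℓ (R x) P - b x)) : ℂ) := by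
      linear_combination hz
    have h2 : (P'.card : ℝ) = ‖(P'.card : ℂ)‖ := by rw [Complex.norm_natCast]
    rw [h2, h1]
    refine (norm_sub_le _ _).trans (add_le_add ?_ ?_)
    · rw [norm_mul, Complex.norm_natCast, Complex.norm_natCast, hZ]
    · have h5 : ∀ u ∈ univ.erase (0 : κ → ZMod ℓ), ‖∑ P ∈ P',
          (ZMod.stdAddChar (∑ x, u x * (L ℓ (R x) P - b x)) : ℂ)‖ ≤
          (5 * (ℓ * W : ℕ) + 2) * s ^ n + Fintype.card κ := by
        intro u hu
        rw [hsp, norm_mul, norm_std, one_mul]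
        exact hbd u hu
      refine (norm_sum_le _ _).trans ((sum_le_sum h5).trans ?_)
      rw [sum_const, card_erase_of_mem (mem_univ _), card_univ, nsmul_eq_mul,
          Nat.cast_sub Fintype.card_pos, Nat.cast_one, ← hZ]
  rw [← hs, ← hZ]
  have hE : 0 ≤ (5 * (ℓ * W : ℕ) + 2) * s ^ n := by positivity
  have hκ : (0 : ℝ) ≤ Fintype.card κ := by positivity
  have h3 : ((Pr k n).card : ℝ) ≤ Z * (B.card + ((5 * (ℓ * W : ℕ) + 2) * s ^ n +
      Fintype.card κ)) := by nlinarith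
  rw [sub_le_iff_le_add, div_le_iff₀ (by linarith)]
  linarith

end

end Pool.Agent.D0H99.FT
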