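import Pool.Agent.Y37.SZ.Sym
import Pool.Agent.Y287.SZ.Chr
import Pool.Agent.Y98.SZ.Adj
import Pool.Agent.Y31.HG.Adj

/-!
The symbol of order `ℓ`, `ℓ` any prime such that `-1` is an `ℓ`-th power, and the adjustment lemma.
-/

set_option autoImplicit false
set_option linter.all false

open Polynomial Finset

namespace Pool.Agent.D0H99.FT

open Pool.Agent.Y164.SZ
open Pool.Agent.Y37.SZ
open Pool.Agent.Y164.PS (Pr mem_Pr rest_le)
open Pool.Agent.H341R2.Sharp
open Pool.Agent.H435R3.Weil (lamPR TL TL_char normChar normChar_apply normChar_pow normChar_ne_one)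

theorem sym0 {ℓ : ℕ} [hp : Fact ℓ.Prime] {k : Type} [Field k] [Fintype k] [DecidableEq k]
    (hneg : ∃ z : k, z ^ ℓ = -1) (hℓ : ℓ ∣ Fintype.card k - 1) : SYM0 ℓ k := by
  have hℓ0 : ℓ ≠ 0 := hp.out.ne_zero
  have hn1 : (-1 : k) ≠ 0 := neg_ne_zero.2 one_ne_zero
  have hch : ch ℓ (-1 : k) = 0 := by
    obtain ⟨z, hz⟩ := hneg
    exact (ch_zero_iff hℓ hn1 hℓ0).2 ⟨z, hz.symm⟩
  have hsign : ∀ (m : ℕ) (c : k), ch ℓ ((-1) ^ m * c) = ch ℓ c := by
    intro m c
    rcases eq_or_ne c 0 with rfl | hc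
    · rw [mul_zero]
    · rw [ch_mul hℓ (pow_ne_zero _ hn1) hc, ch_pow hℓ hn1, hch, mul_zero, zero_add]
  have hneg : ∀ {f P : k[X]}, Irreducible P → L ℓ (-f) P = L ℓ f P := by
    intro f P hi
    by_cases hf : P ∣ f
    · rw [L_nc hi.ne_zero (not_coprime_of_dvd hi ((dvd_neg).2 hf)),
        L_nc hi.ne_zero (not_coprime_of_dvd hi hf)]
    · have hf0 : f ≠ 0 := by rintro rfl; exact hf (dvd_zero _)
      have h1 : -f = C (-1) * f := by simp
      have h3 : L ℓ (C (-1 : k)) P = 0 := by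
        rw [L_C hℓ hn1, hch, mul_zero]
      rw [h1, L_mul_left hℓ (C_ne_zero.2 hn1) hf0 (coprime_C hn1 _)
        (coprime_of_not_dvd hi hf), h3, zero_add]
  refine ⟨fun c c' hc hc' => ch_mul hℓ hc hc', fun c hc => ch_zero_iff hℓ hc hℓ0, ?_,
    fun f g hg h => L_nc hg h, fun f f' g _ hf hf' h h' => L_mul_left hℓ hf hf' h h', ?_,
    fun c g hc => L_C hℓ hc g, fun P f hP hi h => L_zero_iff hℓ hℓ0 hP hi h,
    fun P f g hP hi h => L_congr hP hi h, fun P f hP hi => hneg hi, ?_, ?_⟩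
  · intro f g
    unfold L
    rw [resultant_comm, hsign]
  · intro α s f g hg hf h
    classical
    induction s using Finset.induction_on with
    | empty => rw [Finset.prod_empty, Finset.sum_empty, L_one_left hℓ]
    | insert a s ha ih =>
      rw [Finset.prod_insert ha, Finset.sum_insert ha, L_mul_left hℓ (hf a (by simp))
        (Finset.prod_ne_zero_iff.2 fun b hb => hf b (by simp [hb])) (h a (by simp))
        (IsCoprime.prod_left fun b hb => h b (by simp [hb])),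
        ih (fun b hb => hf b (by simp [hb])) fun b hb => h b (by simp [hb])]
  · intro f g hg h
    unfold lc
    rw [if_neg (res_ne h)]
  · intro f g hg h
    unfold lc
    rw [if_pos (res_eq hg h)]

open Pool.Agent.Y287.SZ.Chr (chi chi_ne_one chi_pow chi_ne chi_norm TL_le split_TC) in
theorem chr {ℓ : ℕ} [hF : Fact ℓ.Prime] {k : Type} [Field k] [Fintype k] [DecidableEq k]
    (hdv : ℓ ∣ Fintype.card k - 1) (hk : ringChar k ≠ 2) (S : SYM0 ℓ k) : SYM ℓ k := by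
  refine ⟨S, ?_⟩
  intro M hM hM1 hns d hd
  have hℓ : ℓ.Prime := hF.out
  set χ := chi S.ch_mul with hχ
  have hχ1 : χ ≠ 1 := chi_ne_one hℓ hdv S
  have hχp : χ ^ ℓ = 1 := chi_pow S.ch_mul
  have hlc : ∀ P : k[X], lc ℓ M P = lamPR χ M 1 P := by
    intro P
    unfold lamPR
    have e1 : resultant P (1 : k[X]) P.natDegree (1 : k[X]).natDegree = 1 := by
      rw [natDegree_one, resultant_zero_right_deg]
      simp
    rw [e1, map_one, map_one, mul_one]
    unfold lc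
    split_ifs with h0
    · rw [h0]; exact (MulChar.map_zero _).symm
    · rw [hχ, chi_ne _ h0]; rfl
  have hn1 : ∀ P : k[X], ‖lamPR χ M 1 P‖ ≤ 1 := by
    intro P
    unfold lamPR
    rw [norm_mul, RCLike.norm_conj]
    exact mul_le_one₀ (chi_norm _ _) (norm_nonneg _) (chi_norm _ _)
  have h1 := TL_le hℓ hdv χ hχ1 hχp hM hns d hd
  have h3 := split_TC (k := k) d hd
    (fun P => (P.natDegree : ℂ) * (lamPR χ M 1 P) ^ (d / P.natDegree))
  have h4 : ∑ P ∈ Pr k d, (P.natDegree : ℂ) * (lamPR χ M 1 P) ^ (d / P.natDegree) =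
      (d : ℂ) * ∑ P ∈ Pr k d, lc ℓ M P := by
    rw [mul_sum]
    refine sum_congr rfl fun P hP => ?_
    rw [(mem_Pr.1 hP).2.2, Nat.div_self (by omega), pow_one, hlc]
  have h5 : ‖∑ P ∈ (Irr k d).filter (fun P => P.natDegree ∣ d ∧ P.natDegree < d),
      (P.natDegree : ℂ) * (lamPR χ M 1 P) ^ (d / P.natDegree)‖ ≤
      2 * (Real.sqrt (Fintype.card k)) ^ d := by
    refine (norm_sum_le _ _).trans ((sum_le_sum fun P hP => ?_).trans (rest_le hk d hd))
    rw [norm_mul, norm_pow, Complex.norm_natCast]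
    calc (P.natDegree : ℝ) * ‖lamPR χ M 1 P‖ ^ (d / P.natDegree) ≤ (P.natDegree : ℝ) * 1 := by
          apply mul_le_mul_of_nonneg_left _ (by positivity)
          exact pow_le_one₀ (norm_nonneg _) (hn1 P)
      _ = _ := mul_one _
  have h6 : (d : ℝ) * ‖∑ P ∈ Pr k d, lc ℓ M P‖ = ‖(d : ℂ) * ∑ P ∈ Pr k d, lc ℓ M P‖ := by
    rw [norm_mul, Complex.norm_natCast]
  rw [h6, ← h4]
  have h7 : ∑ P ∈ Pr k d, (P.natDegree : ℂ) * (lamPR χ M 1 P) ^ (d / P.natDegree) =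
      TL (lamPR χ M 1) d - ∑ P ∈ (Irr k d).filter (fun P => P.natDegree ∣ d ∧ P.natDegree < d),
      (P.natDegree : ℂ) * (lamPR χ M 1 P) ^ (d / P.natDegree) := by
    unfold TL
    rw [h3]
    ring
  rw [h7]
  have h8 : (0 : ℝ) ≤ M.natDegree * (Real.sqrt (Fintype.card k)) ^ d := by positivity
  calc _ ≤ ‖TL (lamPR χ M 1) d‖ +
      ‖∑ P ∈ (Irr k d).filter (fun P => P.natDegree ∣ d ∧ P.natDegree < d),
      (P.natDegree : ℂ) * (lamPR χ M 1 P) ^ (d / P.natDegree)‖ := norm_sub_le _ _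
    _ ≤ _ := by linarith

section adj
open Pool.Agent.Y713.SE Pool.Agent.Y713.SE.Dat

/-- the adjustment lemma for all primes -/
theorem adj (ℓ n : ℕ) (K : Type) [Field K] (D : Dat ℓ n K) (L : Type) [Field L] [Algebra K L]
    [IsGalois K L] (hl : ℓ ≠ 2 ∨ IsSquare (-1 : K))
    (m : Fin n → ℕ) (χ χ' : (L ≃ₐ[K] L) → Fin n → ℕ) (kd : D.KD χ) (kd' : D.KD χ')
    (Q : ClassGroup (D.base L).A) (hQ : cl ((D.base L).PT m) * (D.base L).sC Q = Q)
    (hχ : ∀ σ, cl ((D.base L).PT (χ' σ)) = cl ((D.base L).PT (χ σ)) / (D.mC (Dat.au σ) Q / Q))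
    (i j : Fin n) : ∃ x : K, x ≠ 0 ∧ kd'.d i j * Tm D m j = x ^ ℓ * (kd.d i j * Tm D m i) := by
  by_cases h : ℓ = 2
  · subst h
    obtain ⟨x, hx, e⟩ := Pool.Agent.Y31.HG.Adj.t n K D L (hl.resolve_left (fun h => h rfl)) m χ χ'
      kd kd' Q hQ hχ i j
    have e0 : ∀ i, Pool.Agent.Y164.HG.Tm D m i = Tm D m i := fun i => rfl
    rw [e0, e0] at e
    have e1 := Pool.Agent.Y31.HG.Adj.Tm_ne D m j
    rw [e0] at e1
    refine ⟨x * Tm D m j, mul_ne_zero hx e1, ?_⟩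
    rw [e]
    ring
  · exact Pool.Agent.Y98.SZ.Adj.t ℓ n K D L h m χ χ' kd kd' Q hQ hχ i j

end adj

end Pool.Agent.D0H99.FT
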