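import Pool.Agent.D0H99.FT.Fin

/-!
Families of twists of a pencil.
-/

set_option autoImplicit false
set_option linter.all false

open Polynomial IsDedekindDomain

namespace Pool.Agent.D0H99.FT

open Finset
open Pool.Agent.Y164.SZ
open Pool.Agent.Y713.SE (pencil tDat)
open Pool.Agent.Y164.PS (Fam)
open Pool.Agent.Y713.Jac (ShaPrimaryTrivial ShaTateTrivial)
open Pool.Agent.D0H99.EA (prim_scale fin_sep Killed killed_zero dT desc)

/-- the conditions on a pencil -/
structure Pen (ℓ : ℕ) {k : Type} [Field k] (h g : k[X]) : Prop where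
  hs : h.Splits
  hsep : h.Separable
  hd2 : 2 ≤ h.natDegree
  hn : ¬ ℓ ∣ h.natDegree + 1
  hg : ¬ ℓ ∣ g.natDegree
  hirr : ∀ c, h.IsRoot c → Irreducible (g - C c)

/-- the nodes -/
structure Nod {k : Type} [Field k] (h g : k[X]) (c : Fin h.natDegree → k)
    (P : Fin h.natDegree → k[X]) : Prop where
  hc : Function.Injective c
  hroot : ∀ a, h.IsRoot (c a)
  hfac : h = C h.leadingCoeff * ∏ i, (X - C (c i))
  hP : ∀ a, g - C (c a) = C g.leadingCoeff * P a
  hPm : ∀ a, (P a).Monic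
  hPi : ∀ a, Irreducible (P a)
  hPinj : Function.Injective P
  hPd : ∀ a, (P a).natDegree = g.natDegree

theorem Pen.nodes {ℓ : ℕ} {k : Type} [Field k] {h g : k[X]} (H : Pen ℓ h g) :
    ∃ (c : Fin h.natDegree → k) (P : Fin h.natDegree → k[X]), Nod h g c P := by
  classical
  have hh0 : h ≠ 0 := H.hsep.ne_zero
  obtain ⟨c, hc, hroot, hfac⟩ := split_prod H.hs H.hsep
  have hgpos : 0 < g.natDegree := Nat.pos_of_ne_zero fun h => H.hg (h ▸ dvd_zero _)
  have hglc : g.leadingCoeff ≠ 0 := by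
    intro h
    rw [leadingCoeff_eq_zero.1 h, natDegree_zero] at hgpos
    exact lt_irrefl _ hgpos
  let P : Fin h.natDegree → k[X] := fun a => C g.leadingCoeff⁻¹ * (g - C (c a))
  have hPeq : ∀ a, g - C (c a) = C g.leadingCoeff * P a := by
    intro a
    change _ = C g.leadingCoeff * (C g.leadingCoeff⁻¹ * (g - C (c a)))
    rw [← mul_assoc, ← C_mul, mul_inv_cancel₀ hglc, C_1, one_mul]
  have hlcs : ∀ a, (g - C (c a)).leadingCoeff = g.leadingCoeff := by
    intro a
    apply leadingCoeff_sub_of_degree_lt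
    exact lt_of_le_of_lt degree_C_le (natDegree_pos_iff_degree_pos.1 hgpos)
  have hPm : ∀ a, (P a).Monic := by
    intro a
    change (C g.leadingCoeff⁻¹ * (g - C (c a))).leadingCoeff = 1
    rw [leadingCoeff_mul, leadingCoeff_C, hlcs, inv_mul_cancel₀ hglc]
  have hPi : ∀ a, Irreducible (P a) := by
    intro a
    have h1 : IsUnit (C g.leadingCoeff⁻¹ : k[X]) := isUnit_C.2 (IsUnit.mk0 _ (inv_ne_zero hglc))
    exact (irreducible_isUnit_mul h1).2 (H.hirr _ (hroot a))
  have hPinj : Function.Injective P := by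
    intro a b hab
    have h1 : g - C (c a) = g - C (c b) := by rw [hPeq a, hPeq b, hab]
    exact hc (C_injective (sub_right_injective h1))
  have hPd : ∀ a, (P a).natDegree = g.natDegree := by
    intro a
    change (C g.leadingCoeff⁻¹ * (g - C (c a))).natDegree = _
    rw [natDegree_C_mul (inv_ne_zero hglc), natDegree_sub_C]
  exact ⟨c, P, hc, hroot, hfac, hPeq, hPm, hPi, hPinj, hPd⟩

theorem family {ℓ : ℕ} [hℓ : Fact ℓ.Prime] {k : Type} [Field k] [Fintype k] [DecidableEq k]
    (S : SYM0 ℓ k) (hneg : ∃ z : k, z ^ ℓ = -1) (hlk0 : ((ℓ : ℕ) : k) ≠ 0) {ζ : k}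
    (hζ : IsPrimitiveRoot ζ ℓ) {h g : k[X]} (HP : Pen ℓ h g) {c : Fin h.natDegree → k}
    {P : Fin h.natDegree → k[X]} (HN : Nod h g c P) {α : Type} [DecidableEq α]
    {D : α → k[X]} (hD1 : Function.Injective D)
    (hD2 : ∀ j, (D j).Monic ∧ Irreducible (D j) ∧ ℓ ∣ (D j).natDegree)
    (hD4 : ∀ i j, i ≠ j → L ℓ (D i) (D j) = 0) (hD5 : ∀ a j, L ℓ (P a) (D j) ≠ 0)
    {K : Type} [Field K] [Algebra k[X] K] [IsFractionRing k[X] K] {c0 : k} (hc0 : c0 ≠ 0)
    (s : Finset α) (e : α → ℕ) :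
    ShaPrimaryTrivial ℓ (C (algebraMap k[X] K (C c0 * ∏ j ∈ s, D j ^ e j)) * pencil K h g)
      k[X] := by
  classical
  have hs := HP.hs
  have hsep := HP.hsep
  have hd2 := HP.hd2
  have hn := HP.hn
  have hg := HP.hg
  have hirr := HP.hirr
  have hc := HN.hc
  have hroot := HN.hroot
  have hfac := HN.hfac
  have hPeq := HN.hP
  have hPm := HN.hPm
  have hPi := HN.hPi
  have hPinj := HN.hPinj
  have hPd := HN.hPd
  have hh0 : h ≠ 0 := hsep.ne_zero
  have hlc : h.leadingCoeff ≠ 0 := leadingCoeff_ne_zero.2 hh0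
  have hD3 : ∀ a j, P a ≠ D j := by
    intro a j hj
    apply hg
    rw [← hPd a, hj]
    exact (hD2 j).2.2
  have hinj := IsFractionRing.injective k[X] K
  let J : Finset α := s.filter fun j => ¬ ℓ ∣ e j
  let z : k[X] := ∏ j ∈ s.filter (fun j => ¬ ¬ ℓ ∣ e j), D j ^ (e j / ℓ)
  have hz0 : algebraMap k[X] K z ≠ 0 := by
    rw [Ne, map_eq_zero_iff _ hinj]
    exact Finset.prod_ne_zero_iff.2 fun j _ => pow_ne_zero _ (hD2 j).2.1.ne_zero
  have hzp : ∏ j ∈ s, D j ^ e j = z ^ ℓ * ∏ j ∈ J, D j ^ e j := by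
    rw [← Finset.prod_filter_mul_prod_filter_not s (fun j => ¬ ℓ ∣ e j), mul_comm]
    congr 1
    rw [← Finset.prod_pow]
    refine Finset.prod_congr rfl fun j hj => ?_
    have h1 : ℓ ∣ e j := not_not.1 (mem_filter.1 hj).2
    rw [← pow_mul, Nat.div_mul_cancel h1]
  have key : ShaPrimaryTrivial ℓ (C (algebraMap k[X] K (C c0 * ∏ j ∈ J, D j ^ e j)) *
      pencil K h g) k[X] := by
    by_cases hJ : J.Nonempty
    · haveI : Nonempty J := hJ.coe_sort
      have H : Dta ℓ c g P (fun x : J => D x) (fun x : J => e x) :=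
        { S := S
          hl := hneg
          hlk := hlk0
          hm := hd2
          hn := hn
          hc := hc
          hg := hg
          hP := hPeq
          fam := by
            refine ⟨?_, ?_, ?_⟩
            · rintro (x | a)
              · exact (hD2 x).1
              · exact hPm a
            · rintro (x | a)
              · exact (hD2 x).2.1
              · exact hPi a
            · refine (hD1.comp Subtype.val_injective).sumElim hPinj ?_
              intro x a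
              exact (hD3 a x).symm
          ht := fun x => (mem_filter.1 x.2).2
          hTd := fun x => (ZMod.natCast_eq_zero_iff _ _).2 (hD2 x).2.2
          hTT := fun x y hxy => hD4 _ _ fun h => hxy (Subtype.ext h).symm
          hPT := fun a x => hD5 a x }
      have h1 := H.primary (K := K) hζ hlc hfac hc0
      have h3 : ∏ x : J, D x ^ e x = ∏ j ∈ J, D j ^ e j :=
        Finset.prod_coe_sort J (fun j => D j ^ e j)
      rwa [h3] at h1
    · rw [Finset.not_nonempty_iff_eq_empty.1 hJ, Finset.prod_empty, mul_one]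
      have h1 : C (algebraMap k[X] K (C c0)) * pencil K h g = pencil K (C c0 * h) g := by
        unfold pencil
        rw [Polynomial.map_mul, map_C, RingHom.comp_apply, mul_assoc]
      have hdeg : (C c0 * h).natDegree = h.natDegree := natDegree_C_mul hc0
      rw [h1]
      refine Pool.Agent.Y713.SE.pencil_primary K hℓ.out hlk0 hζ ((Splits.C _).mul hs) ?_
        (by rw [hdeg]; exact hd2) (by rw [hdeg]; exact hn) hg ?_
      · refine hsep.of_dvd ⟨C (c0⁻¹), ?_⟩
        rw [mul_comm (C c0), mul_assoc, ← C_mul, mul_inv_cancel₀ hc0, C_1, mul_one]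
      · intro x hx
        refine hirr x ?_
        rw [IsRoot.def, eval_mul, eval_C] at hx
        exact (mul_eq_zero.1 hx).resolve_left hc0
  have h3 := prim_scale hz0 key
  have h4 : C ((algebraMap k[X] K z) ^ ℓ) * (C (algebraMap k[X] K (C c0 * ∏ j ∈ J, D j ^ e j)) *
      pencil K h g) = C (algebraMap k[X] K (C c0 * ∏ j ∈ s, D j ^ e j)) *
        pencil K h g := by
    rw [← mul_assoc, ← C_mul, ← map_pow, ← map_mul, hzp]
    congr 3
    ring
  rwa [h4] at h3


theorem layers {ℓ : ℕ} (hℓ : ℓ.Prime) {k : Type} [Field k] {ζ : k} (hζ : IsPrimitiveRoot ζ ℓ)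
    (hk0 : ((ℓ : ℕ) : k) ≠ 0) {h g : k[X]} (HP : Pen ℓ h g) {α : Type} [DecidableEq α]
    (s : Finset α) {D : α → k[X]} (hD : ∀ j, D j ≠ 0)
    (hall : ∀ (c : k) (e : α → ℕ), c ≠ 0 → ShaPrimaryTrivial ℓ
      (C (algebraMap k[X] (RatFunc k) (C c * ∏ j ∈ s, D j ^ e j)) * pencil (RatFunc k) h g) k[X])
    (L : Type) [Field L] [Algebra (RatFunc k) L] [Algebra k[X] L]
    [IsScalarTower k[X] (RatFunc k) L] (r : ℕ) (c : k) (a : α → ℕ) (c' : Fin r → k)
    (e : Fin r → α → ℕ) (u : Fin r → L) (hc : c ≠ 0) (hc' : ∀ i, c' i ≠ 0)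
    (hu : ∀ i, u i ^ ℓ = algebraMap (RatFunc k) L (algebraMap k[X] (RatFunc k)
        (C (c' i) * ∏ j ∈ s, D j ^ e i j)))
    (hgen : IntermediateField.adjoin (RatFunc k) (Set.range u) = ⊤)
    (R : Type) [CommRing R] [IsDedekindDomain R] [Algebra R L] [IsFractionRing R L]
    [Algebra k[X] R] [IsScalarTower k[X] R L] [IsIntegralClosure R k[X] L] :
    Killed ℓ r ((C (algebraMap k[X] (RatFunc k)
      (C c * ∏ j ∈ s, D j ^ a j)) * pencil (RatFunc k) h g).map
        (algebraMap (RatFunc k) L)) R := by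
  classical
  have hs := HP.hs
  have hsep := HP.hsep
  have hd2 := HP.hd2
  have hn := HP.hn
  have hg := HP.hg
  have hh0 : h ≠ 0 := hsep.ne_zero
  have hgpos : 0 < g.natDegree := Nat.pos_of_ne_zero fun h => hg (h ▸ dvd_zero _)
  have hinj : Function.Injective ((algebraMap k[X] (RatFunc k)).comp (C : k →+* k[X])) :=
    RingHom.injective _
  have hK : ((ℓ : ℕ) : RatFunc k) ≠ 0 := by
    have h1 := (map_ne_zero_iff _ hinj).2 hk0
    rwa [map_natCast] at h1
  have hne : ∀ (c : k) (a : α → ℕ), c ≠ 0 → algebraMap k[X] (RatFunc k)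
      (C c * ∏ j ∈ s, D j ^ a j) ≠ 0 := by
    intro c a hc
    rw [Ne, map_eq_zero_iff _ (IsFractionRing.injective k[X] (RatFunc k))]
    exact mul_ne_zero (C_ne_zero.2 hc) (Finset.prod_ne_zero_iff.2 fun j _ =>
      pow_ne_zero _ (hD j))
  let d : Fin r → RatFunc k := fun i => algebraMap k[X] (RatFunc k)
    (C (c' i) * ∏ j ∈ s, D j ^ e i j)
  have hd : ∀ i, d i ≠ 0 := fun i => hne _ _ (hc' i)
  obtain ⟨hfd, hse⟩ := fin_sep hℓ.pos hK (d := d) hu hd hgen
  haveI : Algebra.IsIntegral k[X] R := IsIntegralClosure.isIntegral_algebra k[X] L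
  have hprim : ∀ t : Fin r → Fin ℓ, ShaPrimaryTrivial ℓ
      (C (dT d t) * (C (algebraMap k[X] (RatFunc k)
        (C c * ∏ j ∈ s, D j ^ a j)) * pencil (RatFunc k) h g)) k[X] := by
    intro t
    have h1 := hall (c * ∏ i, c' i ^ (t i : ℕ))
      (fun j => a j + ∑ i, e i j * (t i : ℕ))
      (mul_ne_zero hc (Finset.prod_ne_zero_iff.2 fun i _ => pow_ne_zero _ (hc' i)))
    have h2 : C (algebraMap k[X] (RatFunc k)
        (C (c * ∏ i, c' i ^ (t i : ℕ)) *
          ∏ j ∈ s, D j ^ (a j + ∑ i, e i j * (t i : ℕ)))) * pencil (RatFunc k) h g =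
        C (dT d t) * (C (algebraMap k[X] (RatFunc k)
        (C c * ∏ j ∈ s, D j ^ a j)) * pencil (RatFunc k) h g) := by
      rw [← mul_assoc, ← C_mul]
      congr 2
      unfold dT
      have h6 : ∏ i, d i ^ (t i : ℕ) = algebraMap k[X] (RatFunc k)
          (∏ i, (C (c' i) * ∏ j ∈ s, D j ^ e i j) ^ (t i : ℕ)) := by
        rw [map_prod]
        exact Finset.prod_congr rfl fun i _ => by rw [map_pow]
      rw [h6, ← map_mul]
      congr 1
      have h3 : ∏ j ∈ s, D j ^ (a j + ∑ i, e i j * (t i : ℕ)) =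
          (∏ j ∈ s, D j ^ a j) *
            ∏ j ∈ s, ∏ i, D j ^ (e i j * (t i : ℕ)) := by
        rw [← Finset.prod_mul_distrib]
        refine Finset.prod_congr rfl fun j _ => ?_
        rw [Finset.prod_pow_eq_pow_sum, ← pow_add]
      have h5 : ∏ i, (C (c' i) * ∏ j ∈ s, D j ^ e i j) ^ (t i : ℕ) =
          C (∏ i, c' i ^ (t i : ℕ)) *
            ∏ j ∈ s, ∏ i, D j ^ (e i j * (t i : ℕ)) := by
        rw [Finset.prod_comm, map_prod, ← Finset.prod_mul_distrib]
        refine Finset.prod_congr rfl fun i _ => ?_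
        rw [mul_pow, C_pow, ← Finset.prod_pow]
        congr 1
        exact Finset.prod_congr rfl fun j _ => by rw [← pow_mul]
      rw [h3, h5, C_mul]
      ring
    rwa [h2] at h1
  have hE0 := hne c a hc
  set E : RatFunc k := algebraMap k[X] (RatFunc k) (C c * ∏ j ∈ s, D j ^ a j)
  have hF1 : (C E * pencil (RatFunc k) h g).Splits := (Splits.C _).mul (pencil_splits hs)
  have hF2 : (C E * pencil (RatFunc k) h g).Separable := by
    refine (pencil_sep (K := RatFunc k) hsep (by omega) hgpos).of_dvd ⟨C (E⁻¹), ?_⟩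
    rw [mul_comm (C E), mul_assoc, ← C_mul, mul_inv_cancel₀ hE0, C_1, mul_one]
  have hF3 : ¬ ℓ ∣ (C E * pencil (RatFunc k) h g).natDegree := by
    rwa [natDegree_C_mul hE0, pencil_deg hh0]
  have hζ' : IsPrimitiveRoot (algebraMap k[X] (RatFunc k) (C ζ)) ℓ :=
    hζ.map_of_injective (f := (algebraMap k[X] (RatFunc k)).comp C) hinj
  have key := desc (R := k[X]) (R' := R) hℓ hK hζ' hu hd hgen
    hF1 hF2 hF3 (m := 0) (fun t => killed_zero (hprim t))
  rwa [zero_add, Fintype.card_fin] at key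


end Pool.Agent.D0H99.FT
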