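import Pool.Agent.D0H99.FT.Cnt
import Pool.Agent.D0H99.FT.Fm

/-!
The density of the good tuples of primes.
-/

set_option autoImplicit false
set_option linter.all false

open Polynomial IsDedekindDomain Filter

namespace Pool.Agent.D0H99.FT

open Finset
open Pool.Agent.Y164.SZ
open Pool.Agent.Y164.PS (Fam Pr mem_Pr card_Pr_ge)

section
variable (ℓ : ℕ) {k : Type} [Field k] [Fintype k] [DecidableEq k] {m : ℕ} (P : Fin m → k[X])

open Classical in
/-- the primes extending a tuple -/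
noncomputable def ext {r : ℕ} (n : ℕ) (d : Fin r → k[X]) : Finset k[X] :=
  (Pr k n).filter fun x => (∀ i, d i ≠ x) ∧ (∀ i, L ℓ (d i) x = 0) ∧ ∀ a, L ℓ (P a) x ≠ 0

open Classical in
/-- the good tuples -/
noncomputable def Gt (r n : ℕ) : Finset (Fin r → k[X]) :=
  (Fintype.piFinset fun _ : Fin r => Pr k n).filter fun d => Function.Injective d ∧
    (∀ a i, L ℓ (P a) (d i) ≠ 0) ∧ ∀ i j, i ≠ j → L ℓ (d i) (d j) = 0

/-- the density of the extensions -/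
noncomputable def rh (ℓ m r : ℕ) : ℝ := ((ℓ : ℝ) - 1) ^ m / (ℓ : ℝ) ^ (r + m)

/-- the error term -/
noncomputable def er (ℓ m N r : ℕ) (s : ℝ) (n : ℕ) : ℝ :=
  ((ℓ : ℝ) - 1) ^ m * ((5 * (ℓ * (r * n + m * N) : ℕ) + 2) * s ^ n + (r + m : ℕ))

end

section
variable {ℓ : ℕ} [hℓ : Fact ℓ.Prime]
variable {k : Type} [Field k] [Fintype k] [DecidableEq k] {m : ℕ} {P : Fin m → k[X]}

theorem ext_card (S : SYM ℓ k) (hPm : ∀ a, (P a).Monic) (hPi : ∀ a, Irreducible (P a))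
    (hPinj : Function.Injective P) {N : ℕ} (hPd : ∀ a, (P a).natDegree = N) (hN : ¬ ℓ ∣ N)
    {r n : ℕ} (hn : 1 ≤ n) (hln : ℓ ∣ n) {d : Fin r → k[X]} (hd : d ∈ Gt ℓ P r n) :
    rh ℓ m r * (Pr k n).card - er ℓ m N r (Real.sqrt (Fintype.card k)) n ≤
      ((ext ℓ P n d).card : ℝ) := by
  classical
  rw [Gt, mem_filter, Fintype.mem_piFinset] at hd
  obtain ⟨hd1, hd2, hd3, hd4⟩ := hd
  have hd5 : ∀ i, (d i).Monic ∧ Irreducible (d i) ∧ (d i).natDegree = n := fun i =>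
    mem_Pr.1 (hd1 i)
  have hR : Fam (Sum.elim d P) := by
    refine ⟨?_, ?_, ?_⟩
    · rintro (x | a)
      · exact (hd5 x).1
      · exact hPm a
    · rintro (x | a)
      · exact (hd5 x).2.1
      · exact hPi a
    · refine hd2.sumElim hPinj ?_
      intro x a h
      apply hN
      rw [← hPd a, ← h, (hd5 x).2.2]
      exact hln
  have hW : ∑ x, ((Sum.elim d P x).natDegree) ≤ r * n + m * N := by
    rw [Fintype.sum_sum_type]
    simp only [Sum.elim_inl, Sum.elim_inr]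
    rw [sum_congr rfl fun i _ => (hd5 i).2.2, sum_congr rfl fun a _ => hPd a, sum_const, sum_const,
      card_univ, card_univ, Fintype.card_fin, Fintype.card_fin, smul_eq_mul, smul_eq_mul]
  obtain ⟨t, ht⟩ : ∃ t : Finset (Fin m → ZMod ℓ),
    t = Fintype.piFinset fun _ => univ.erase (0 : ZMod ℓ) := ⟨_, rfl⟩
  have htc : (t.card : ℝ) = ((ℓ : ℝ) - 1) ^ m := by
    rw [ht, Fintype.card_piFinset, prod_const, card_erase_of_mem (mem_univ _), card_univ, ZMod.card,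
      card_univ, Fintype.card_fin, Nat.cast_pow, Nat.cast_sub hℓ.out.one_lt.le, Nat.cast_one]
  have hmap : Set.MapsTo (fun (x : k[X]) (a : Fin m) => L ℓ (P a) x) (ext ℓ P n d : Set k[X])
      (t : Set (Fin m → ZMod ℓ)) := by
    intro x hx
    rw [mem_coe, ext, mem_filter] at hx
    rw [mem_coe, ht, Fintype.mem_piFinset]
    intro a
    exact mem_erase.2 ⟨hx.2.2.2 a, mem_univ _⟩
  rw [card_eq_sum_card_fiberwise hmap, Nat.cast_sum]
  have hone : ∀ b ∈ t, ((Pr k n).card : ℝ) / (ℓ : ℝ) ^ (r + m) -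
      ((5 * (ℓ * (r * n + m * N) : ℕ) + 2) * (Real.sqrt (Fintype.card k)) ^ n + (r + m : ℕ)) ≤
      (((ext ℓ P n d).filter fun x => (fun a : Fin m => L ℓ (P a) x) = b).card : ℝ) := by
    intro b hb
    rw [ht, Fintype.mem_piFinset] at hb
    have h1 := count_one S hR (Sum.elim (fun _ => (0 : ZMod ℓ)) b) hn hW
    have h2 : (Fintype.card (Fin r ⊕ Fin m → ZMod ℓ) : ℝ) = (ℓ : ℝ) ^ (r + m) := by
      rw [Fintype.card_fun, ZMod.card, Fintype.card_sum, Fintype.card_fin, Fintype.card_fin,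
        Nat.cast_pow]
    have h3 : (Fintype.card (Fin r ⊕ Fin m) : ℝ) = ((r + m : ℕ) : ℝ) := by
      rw [Fintype.card_sum, Fintype.card_fin, Fintype.card_fin]
    rw [h2, h3] at h1
    refine h1.trans ?_
    exact_mod_cast card_le_card fun x hx => by
      rw [mem_filter] at hx
      rw [mem_filter, ext, mem_filter]
      refine ⟨⟨hx.1, fun i => hx.2.1 (Sum.inl i), fun i => hx.2.2 (Sum.inl i), fun a => ?_⟩, ?_⟩
      · have h4 := hx.2.2 (Sum.inr a)
        simp only [Sum.elim_inr] at h4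
        rw [h4]
        exact (mem_erase.1 (hb a)).1
      · funext a
        exact hx.2.2 (Sum.inr a)
  refine le_trans (le_of_eq ?_) (sum_le_sum hone)
  rw [sum_const, nsmul_eq_mul, htc, rh, er]
  ring

theorem step_card {r n : ℕ} (S : SYM0 ℓ k) :
    ∑ d ∈ Gt ℓ P r n, (ext ℓ P n d).card ≤ (Gt ℓ P (r + 1) n).card := by
  classical
  rw [← card_sigma]
  refine card_le_card_of_injOn (fun x => (Fin.cons x.2 x.1 : Fin (r + 1) → k[X])) ?_ ?_
  · rintro ⟨d, x⟩ hx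
    rw [mem_coe, mem_sigma] at hx
    obtain ⟨hd, hx⟩ := hx
    simp only at hd hx
    rw [Gt, mem_filter, Fintype.mem_piFinset] at hd
    rw [ext, mem_filter] at hx
    obtain ⟨hd1, hd2, hd3, hd4⟩ := hd
    obtain ⟨hx1, hx2, hx3, hx4⟩ := hx
    rw [mem_coe, Gt, mem_filter, Fintype.mem_piFinset]
    refine ⟨fun i => ?_, ?_, fun a i => ?_, fun i j hij => ?_⟩
    · refine Fin.cases ?_ (fun i => ?_) i
      · exact hx1
      · exact hd1 i
    · rw [Fin.cons_injective_iff]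
      refine ⟨?_, hd2⟩
      rintro ⟨i, hi⟩
      exact hx2 i hi
    · refine Fin.cases ?_ (fun i => ?_) i
      · exact hx4 a
      · exact hd3 a i
    · rcases Fin.eq_zero_or_eq_succ i with rfl | ⟨i, rfl⟩ <;>
        rcases Fin.eq_zero_or_eq_succ j with rfl | ⟨j, rfl⟩
      · exact absurd rfl hij
      · simp only [Fin.cons_zero, Fin.cons_succ]
        rw [S.L_comm]
        exact hx3 j
      · simp only [Fin.cons_zero, Fin.cons_succ]
        exact hx3 i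
      · simp only [Fin.cons_succ]
        exact hd4 i j fun h => hij (congrArg Fin.succ h)
  · rintro ⟨d, x⟩ _ ⟨d', x'⟩ _ h
    simp only at h
    have h1 := Fin.cons_injective2 h
    obtain ⟨h2, h3⟩ := h1
    rw [h2, h3]

theorem er_small (hk : ringChar k ≠ 2) (N r : ℕ) {δ : ℝ} (hδ : 0 < δ) :
    ∀ᶠ n : ℕ in atTop, er ℓ m N r (Real.sqrt (Fintype.card k)) n ≤ δ * (Pr k n).card := by
  obtain ⟨s, hs⟩ : ∃ s : ℝ, s = Real.sqrt (Fintype.card k) := ⟨_, rfl⟩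
  have hq2 : (2 : ℝ) ≤ Fintype.card k := by exact_mod_cast (Fintype.one_lt_card (α := k))
  have hs1 : 1 < s := by
    rw [hs, Real.lt_sqrt (by norm_num)]
    linarith
  have hss : s * s = Fintype.card k := by
    rw [hs, Real.mul_self_sqrt (by linarith)]
  have hl : (0 : ℝ) ≤ (ℓ : ℝ) - 1 := by
    have : (1 : ℝ) ≤ ℓ := by exact_mod_cast hℓ.out.one_lt.le
    linarith
  obtain ⟨A, hA⟩ : ∃ A : ℝ, A = ((ℓ : ℝ) - 1) ^ m * ((5 * (ℓ * (r + m * N) : ℕ) + 2) +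
    (r + m : ℕ)) := ⟨_, rfl⟩
  have hA0 : 0 ≤ A := by rw [hA]; positivity
  have h1 := tendsto_pow_const_div_const_pow_of_one_lt 2 hs1
  have h2 : 0 < δ / (A + 2 * δ) := by positivity
  filter_upwards [h1.eventually (gt_mem_nhds h2), eventually_ge_atTop 1] with n hn hn1
  have hn1' : (1 : ℝ) ≤ n := by exact_mod_cast hn1
  have hsn : 1 ≤ s ^ n := one_le_pow₀ hs1.le
  rw [div_lt_div_iff₀ (by linarith) (by linarith)] at hn
  have h3 := card_Pr_ge (k := k) hk n hn1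
  rw [← hs, ← hss, mul_pow] at h3
  have h4 : er ℓ m N r s n ≤ A * n * s ^ n := by
    rw [er, hA]
    have h5 : ((5 * (ℓ * (r * n + m * N) : ℕ) + 2) * s ^ n + ((r + m : ℕ) : ℝ)) ≤
        ((5 * (ℓ * (r + m * N) : ℕ) + 2) + ((r + m : ℕ) : ℝ)) * n * s ^ n := by
      have h6 : ((ℓ * (r * n + m * N) : ℕ) : ℝ) ≤ ((ℓ * (r + m * N) : ℕ) : ℝ) * n := by
        have h7 : ℓ * (r * n + m * N) ≤ ℓ * (r + m * N) * n := by
          have h8 : m * N ≤ m * N * n := Nat.le_mul_of_pos_right _ hn1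
          calc ℓ * (r * n + m * N) ≤ ℓ * (r * n + m * N * n) :=
                Nat.mul_le_mul_left _ (Nat.add_le_add_left h8 _)
            _ = ℓ * (r + m * N) * n := by ring
        exact_mod_cast h7
      have h8 : (0 : ℝ) ≤ ((r + m : ℕ) : ℝ) := Nat.cast_nonneg _
      have h9 : (0 : ℝ) ≤ ((ℓ * (r + m * N) : ℕ) : ℝ) := Nat.cast_nonneg _
      have h10 : ((r + m : ℕ) : ℝ) ≤ ((r + m : ℕ) : ℝ) * n * s ^ n := by
        have h11 : (1 : ℝ) ≤ n * s ^ n := by nlinarith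
        nlinarith
      have h12 : (5 * ((ℓ * (r * n + m * N) : ℕ) : ℝ) + 2) * s ^ n ≤
          (5 * ((ℓ * (r + m * N) : ℕ) : ℝ) + 2) * n * s ^ n := by
        apply mul_le_mul_of_nonneg_right _ (by linarith)
        nlinarith
      nlinarith
    calc _ ≤ ((ℓ : ℝ) - 1) ^ m * (((5 * (ℓ * (r + m * N) : ℕ) + 2) + ((r + m : ℕ) : ℝ)) *
          n * s ^ n) := mul_le_mul_of_nonneg_left h5 (pow_nonneg hl _)
      _ = _ := by ring
  rw [← hs]
  have h5 : (n : ℝ) * er ℓ m N r s n ≤ δ * (s ^ n * s ^ n - 2 * s ^ n) := by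
    have h6 : (n : ℝ) * er ℓ m N r s n ≤ n * (A * n * s ^ n) :=
      mul_le_mul_of_nonneg_left h4 (by linarith)
    have h7 : (n : ℝ) * (A * n * s ^ n) + 2 * δ * s ^ n ≤ (n : ℝ) ^ 2 * (A + 2 * δ) * s ^ n := by
      have h8 : (1 : ℝ) ≤ (n : ℝ) ^ 2 := one_le_pow₀ hn1'
      have h9 : 2 * δ * s ^ n ≤ (n : ℝ) ^ 2 * (2 * δ) * s ^ n := by
        apply mul_le_mul_of_nonneg_right _ (by linarith)
        nlinarith
      nlinarith
    have h8 : (n : ℝ) ^ 2 * (A + 2 * δ) * s ^ n ≤ δ * s ^ n * s ^ n :=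
      mul_le_mul_of_nonneg_right hn.le (by linarith)
    nlinarith
  have h6 : (n : ℝ) * er ℓ m N r s n ≤ n * (δ * (Pr k n).card) := by
    refine h5.trans ?_
    calc δ * (s ^ n * s ^ n - 2 * s ^ n) ≤ δ * (n * (Pr k n).card) :=
          mul_le_mul_of_nonneg_left h3 hδ.le
      _ = _ := by ring
  exact le_of_mul_le_mul_left h6 (by linarith)

/-- the density of the good tuples -/
noncomputable def cr (ℓ m r : ℕ) : ℝ := ∏ i ∈ range r, rh ℓ m i

omit hℓ in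
theorem rh_le (h1 : 1 ≤ ℓ) (r : ℕ) : 0 ≤ rh ℓ m r ∧ rh ℓ m r ≤ 1 := by
  have h2 : (1 : ℝ) ≤ ℓ := by exact_mod_cast h1
  have h3 : (0 : ℝ) ≤ (ℓ : ℝ) - 1 := by linarith
  refine ⟨by unfold rh; positivity, ?_⟩
  unfold rh
  rw [div_le_one (by positivity), pow_add]
  have h4 : ((ℓ : ℝ) - 1) ^ m ≤ (ℓ : ℝ) ^ m := pow_le_pow_left₀ h3 (by linarith) _
  have h5 : 1 ≤ (ℓ : ℝ) ^ r := one_le_pow₀ h2
  have h6 : 0 ≤ (ℓ : ℝ) ^ m := by positivity
  nlinarith

omit hℓ in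
theorem cr_le (h1 : 1 ≤ ℓ) (r : ℕ) : 0 ≤ cr ℓ m r ∧ cr ℓ m r ≤ 1 :=
  ⟨prod_nonneg fun i _ => (rh_le h1 i).1,
    prod_le_one (fun i _ => (rh_le h1 i).1) fun i _ => (rh_le h1 i).2⟩

omit hℓ in
theorem cr_eq (h1 : 1 ≤ ℓ) (r : ℕ) :
    cr ℓ m r = ((1 : ℝ) - 1 / ℓ) ^ (r * m) / (ℓ : ℝ) ^ (r * (r - 1) / 2) := by
  have h2 : (1 : ℝ) ≤ ℓ := by exact_mod_cast h1
  have h0 : (ℓ : ℝ) ≠ 0 := by positivity
  have h3 : ∀ i, rh ℓ m i = (((1 : ℝ) - 1 / ℓ) ^ m) / (ℓ : ℝ) ^ i := by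
    intro i
    unfold rh
    have h4 : (1 : ℝ) - 1 / ℓ = ((ℓ : ℝ) - 1) / ℓ := by field_simp
    rw [h4, div_pow, pow_add, div_div, mul_comm]
  unfold cr
  rw [prod_congr rfl fun i _ => h3 i, prod_div_distrib, prod_const, card_range, ← pow_mul,
    mul_comm m r, prod_pow_eq_pow_sum, sum_range_id]

theorem main_density (S : SYM ℓ k) (hk : ringChar k ≠ 2) (hPm : ∀ a, (P a).Monic)
    (hPi : ∀ a, Irreducible (P a)) (hPinj : Function.Injective P) {N : ℕ}
    (hPd : ∀ a, (P a).natDegree = N) (hN : ¬ ℓ ∣ N) (r : ℕ) :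
    ∀ ε : ℝ, 0 < ε → ∀ᶠ n : ℕ in atTop, ℓ ∣ n →
      (cr ℓ m r - ε) * ((Pr k n).card : ℝ) ^ r ≤ ((Gt ℓ P r n).card : ℝ) := by
  induction r with
  | zero =>
    intro ε hε
    refine Eventually.of_forall fun n _ => ?_
    have h1 : (Gt ℓ P 0 n).card = 1 := by
      classical
      rw [Gt, filter_true_of_mem, Fintype.card_piFinset, Fin.prod_univ_zero]
      intro d _
      exact ⟨fun i => i.elim0, fun _ i => i.elim0, fun i => i.elim0⟩
    rw [h1, cr, range_zero, prod_empty, pow_zero, mul_one, Nat.cast_one]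
    linarith
  | succ r ih =>
    intro ε hε
    obtain ⟨δ, hδ⟩ : ∃ δ : ℝ, δ = ε / 2 := ⟨_, rfl⟩
    have hδ0 : 0 < δ := by rw [hδ]; linarith
    filter_upwards [ih δ hδ0, er_small (ℓ := ℓ) (m := m) hk N r hδ0, eventually_ge_atTop 1] with
      n h1 h2 h3 hln
    have h4 := h1 hln
    obtain ⟨hr0, hr1⟩ := rh_le (m := m) hℓ.out.one_lt.le r
    obtain ⟨hc0, hc1⟩ := cr_le (m := m) hℓ.out.one_lt.le r
    have hcs : cr ℓ m (r + 1) = cr ℓ m r * rh ℓ m r := by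
      unfold cr
      rw [prod_range_succ]
    have h5 : ((Gt ℓ P r n).card : ℝ) * ((rh ℓ m r - δ) * (Pr k n).card) ≤
        ((Gt ℓ P (r + 1) n).card : ℝ) := by
      have h6 : ((∑ d ∈ Gt ℓ P r n, (ext ℓ P n d).card : ℕ) : ℝ) ≤
          ((Gt ℓ P (r + 1) n).card : ℝ) := by exact_mod_cast step_card S.toSYM0
      refine le_trans ?_ h6
      rw [Nat.cast_sum, ← nsmul_eq_mul, ← sum_const]
      refine sum_le_sum fun d hd => ?_
      have h7 := ext_card S hPm hPi hPinj hPd hN h3 hln hd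
      linarith
    rw [hcs]
    have hp : (0 : ℝ) ≤ (Pr k n).card := Nat.cast_nonneg _
    have hG : (0 : ℝ) ≤ (Gt ℓ P (r + 1) n).card := Nat.cast_nonneg _
    have hpr : (0 : ℝ) ≤ ((Pr k n).card : ℝ) ^ (r + 1) := by positivity
    by_cases hcase : rh ℓ m r - δ ≤ 0
    · refine le_trans ?_ hG
      apply mul_nonpos_of_nonpos_of_nonneg _ hpr
      nlinarith
    · push Not at hcase
      refine le_trans ?_ h5
      have h8 : (cr ℓ m r - δ) * ((Pr k n).card : ℝ) ^ r * ((rh ℓ m r - δ) * (Pr k n).card) ≤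
          ((Gt ℓ P r n).card : ℝ) * ((rh ℓ m r - δ) * (Pr k n).card) :=
        mul_le_mul_of_nonneg_right h4 (mul_nonneg hcase.le hp)
      refine le_trans ?_ h8
      have h9 : (cr ℓ m r - δ) * ((Pr k n).card : ℝ) ^ r * ((rh ℓ m r - δ) * (Pr k n).card) =
          ((cr ℓ m r - δ) * (rh ℓ m r - δ)) * ((Pr k n).card : ℝ) ^ (r + 1) := by ring
      rw [h9]
      apply mul_le_mul_of_nonneg_right _ hpr
      nlinarith

end

end Pool.Agent.D0H99.FT
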