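import Pool.Agent.Y547.SZ.Rep
import Pool.Agent.Y164.SZ.Stm
import Pool.Agent.Y164.PS.Chr

/-!
Primes with prescribed residue symbols, of degree divisible by `ℓ`.
-/

set_option autoImplicit false
set_option linter.all false

open Polynomial IsDedekindDomain

namespace Pool.Agent.D0H99.FT

open Finset
open Pool.Agent.Y164.SZ
open Pool.Agent.Y164.PS (Fam Pr mem_Pr card_Pr_ge)

theorem prod_not_pow {k : Type} [Field k] {α : Type} [DecidableEq α] (ℓ : ℕ) (S : Finset α)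
    (hS : S.Nonempty) (R : α → k[X]) (n : α → ℕ) (hn : ∀ x ∈ S, 0 < n x ∧ n x < ℓ)
    (hm : ∀ x ∈ S, (R x).Monic) (hi : ∀ x ∈ S, Irreducible (R x))
    (hinj : ∀ x ∈ S, ∀ y ∈ S, R x = R y → x = y) (c : k) (h : k[X]) :
    ∏ x ∈ S, R x ^ n x ≠ C c * h ^ ℓ := by
  intro heq
  obtain ⟨x, hx⟩ := hS
  have hne : ∏ x ∈ S, R x ^ n x ≠ 0 := prod_ne_zero_iff.2 fun y hy => pow_ne_zero _ (hm y hy).ne_zero
  have hc : c ≠ 0 := by
    rintro rfl
    rw [C_0, zero_mul] at heq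
    exact hne heq
  have hd : R x ∣ h := by
    have h1 : R x ∣ C c * h ^ ℓ := by
      rw [← heq]
      exact (dvd_pow_self _ (hn x hx).1.ne').trans (dvd_prod_of_mem (fun x => R x ^ n x) hx)
    rcases (hi x hx).prime.dvd_or_dvd h1 with h2 | h2
    · exact absurd (isUnit_of_dvd_unit h2 (isUnit_C.2 (isUnit_iff_ne_zero.2 hc))) (hi x hx).not_isUnit
    · exact (hi x hx).prime.dvd_of_dvd_pow h2
  obtain ⟨h', rfl⟩ := hd
  rw [← mul_prod_erase S _ hx] at heq
  obtain ⟨r, hr⟩ : ∃ r, ℓ = n x + (r + 1) := ⟨ℓ - n x - 1, by have := (hn x hx).2; omega⟩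
  have h3 : ∏ y ∈ S.erase x, R y ^ n y = R x * (R x ^ r * C c * h' ^ ℓ) := by
    apply mul_left_cancel₀ (pow_ne_zero (n x) (hm x hx).ne_zero)
    rw [heq]
    have : (R x * h') ^ ℓ = R x ^ (n x) * R x ^ r * R x * h' ^ ℓ := by
      rw [mul_pow]
      congr 1
      conv_lhs => rw [hr]
      rw [pow_add, pow_succ]
      ring
    rw [this]; ring
  have h4 : R x ∣ ∏ y ∈ S.erase x, R y ^ n y := ⟨_, h3⟩
  rw [(hi x hx).prime.dvd_finset_prod_iff] at h4
  obtain ⟨y, hy, h5⟩ := h4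
  have hy' := mem_of_mem_erase hy
  have h6 : R x = R y := eq_of_monic_of_associated (hm x hx) (hm y hy')
    ((hi x hx).associated_of_dvd (hi y hy') ((hi x hx).prime.dvd_of_dvd_pow h5))
  exact ne_of_mem_erase hy (hinj x hx y hy' h6).symm

section
variable {ℓ : ℕ} [hℓ : Fact ℓ.Prime]

theorem norm_std (x : ZMod ℓ) : ‖(ZMod.stdAddChar x : ℂ)‖ = 1 := by
  apply Complex.norm_eq_one_of_pow_eq_one (n := ℓ) _ hℓ.out.ne_zero
  rw [← AddChar.map_nsmul_eq_pow, nsmul_eq_mul, ZMod.natCast_self, zero_mul,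
    AddChar.map_zero_eq_one]

theorem std_sum {α : Type} (s : Finset α) (f : α → ZMod ℓ) :
    (ZMod.stdAddChar (∑ a ∈ s, f a) : ℂ) = ∏ a ∈ s, ZMod.stdAddChar (f a) := by
  classical
  induction s using Finset.induction_on with
  | empty => rw [sum_empty, prod_empty, AddChar.map_zero_eq_one]
  | insert a s ha ih => rw [sum_insert ha, prod_insert ha, AddChar.map_add_eq_mul, ih]

/-- orthogonality -/
theorem orth {κ : Type} [Fintype κ] [DecidableEq κ] (a : κ → ZMod ℓ) (h : ∃ x, a x ≠ 0) :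
    ∑ u : κ → ZMod ℓ, (ZMod.stdAddChar (∑ x, u x * a x) : ℂ) = 0 := by
  have h1 : ∀ u : κ → ZMod ℓ, (ZMod.stdAddChar (∑ x, u x * a x) : ℂ) =
      ∏ x, ZMod.stdAddChar (u x * a x) := fun u => std_sum _ _
  rw [sum_congr rfl fun u _ => h1 u]
  have h2 := Finset.prod_univ_sum (fun _ : κ => (univ : Finset (ZMod ℓ)))
    (fun x v => (ZMod.stdAddChar (v * a x) : ℂ))
  rw [Fintype.piFinset_univ] at h2
  rw [← h2]
  obtain ⟨x, hx⟩ := h
  apply Finset.prod_eq_zero (mem_univ x)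
  rw [AddChar.sum_mulShift (a x) (ZMod.isPrimitive_stdAddChar ℓ), if_neg hx]
  simp

variable {k : Type} [Field k] [Fintype k] [DecidableEq k] {κ : Type} [Fintype κ] [DecidableEq κ]

theorem exists_prime (S : SYM ℓ k) (hk : ringChar k ≠ 2) {R : κ → k[X]} (hR : Fam R)
    (b : κ → ZMod ℓ) (N : ℕ) :
    ∃ T : k[X], T.Monic ∧ Irreducible T ∧ N ≤ T.natDegree ∧ ℓ ∣ T.natDegree ∧
      ∀ x, L ℓ (R x) T = b x := by
  by_contra hno
  push Not at hno
  obtain ⟨W, hW⟩ : ∃ W : ℕ, W = ∑ x, (R x).natDegree := ⟨_, rfl⟩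
  obtain ⟨q, hq⟩ : ∃ q : ℝ, q = (Fintype.card k : ℝ) := ⟨_, rfl⟩
  have hq2 : 2 ≤ q := by
    rw [hq]
    exact_mod_cast (Fintype.one_lt_card (α := k))
  obtain ⟨A, hA⟩ : ∃ A : ℝ, A = (Fintype.card (κ → ZMod ℓ) : ℝ) * (5 * (ℓ * W : ℕ) + 2) := ⟨_, rfl⟩
  have key : ∀ d, 1 ≤ d → N + W < d → ℓ ∣ d → q ^ d ≤ (2 + A) * (Real.sqrt q) ^ d := by
    intro d hd1 hd hld
    -- coprimality
    have hcop : ∀ P ∈ Pr k d, ∀ x, IsCoprime (R x) P := by
      intro P hP x
      rw [mem_Pr] at hP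
      rw [isCoprime_comm, hP.2.1.coprime_iff_not_dvd]
      intro h
      have h1 := natDegree_le_of_dvd h (hR.mon x).ne_zero
      have h2 : (R x).natDegree ≤ W := by
        rw [hW]
        exact single_le_sum (f := fun x => (R x).natDegree) (fun _ _ => Nat.zero_le _) (mem_univ x)
      omega
    let M : (κ → ZMod ℓ) → k[X] := fun u => ∏ x, R x ^ (u x).val
    have hL : ∀ u : κ → ZMod ℓ, ∀ P ∈ Pr k d,
        lc ℓ (M u) P = (ZMod.stdAddChar (∑ x, u x * L ℓ (R x) P) : ℂ) := by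
      intro u P hP
      have hP0 : P ≠ 0 := (mem_Pr.1 hP).1.ne_zero
      rw [S.lc_cop _ _ hP0 (IsCoprime.prod_left fun x _ => (hcop P hP x).pow_left)]
      congr 1
      rw [S.L_prod_left κ univ _ P hP0 (fun x _ => pow_ne_zero _ (hR.mon x).ne_zero)
        (fun x _ => (hcop P hP x).pow_left)]
      refine sum_congr rfl fun x _ => ?_
      rw [Pool.Agent.Y547.SZ.Rep.L_pow S.toSYM0 hP0 (hR.mon x).ne_zero (hcop P hP x),
        ZMod.natCast_zmod_val]
    have hz : ∑ P ∈ Pr k d, ∑ u : κ → ZMod ℓ,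
        (ZMod.stdAddChar (∑ x, u x * (L ℓ (R x) P - b x)) : ℂ) = 0 := by
      refine sum_eq_zero fun P hP => orth _ ?_
      have hP' := mem_Pr.1 hP
      obtain ⟨x, hx⟩ := hno P hP'.1 hP'.2.1 (by omega) (by rw [hP'.2.2]; exact hld)
      exact ⟨x, sub_ne_zero.2 hx⟩
    rw [sum_comm] at hz
    have hsp : ∀ u : κ → ZMod ℓ, ∑ P ∈ Pr k d,
        (ZMod.stdAddChar (∑ x, u x * (L ℓ (R x) P - b x)) : ℂ) =
        ZMod.stdAddChar (- ∑ x, u x * b x) * ∑ P ∈ Pr k d, lc ℓ (M u) P := by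
      intro u
      rw [mul_sum]
      refine sum_congr rfl fun P hP => ?_
      rw [hL u P hP, ← AddChar.map_add_eq_mul]
      congr 1
      rw [neg_add_eq_sub, ← sum_sub_distrib]
      exact sum_congr rfl fun x _ => by ring
    rw [← add_sum_erase univ _ (mem_univ (0 : κ → ZMod ℓ))] at hz
    have h0 : ∑ P ∈ Pr k d, (ZMod.stdAddChar (∑ x, (0 : κ → ZMod ℓ) x *
        (L ℓ (R x) P - b x)) : ℂ) = (Pr k d).card := by
      have : ∀ P ∈ Pr k d, (ZMod.stdAddChar (∑ x, (0 : κ → ZMod ℓ) x *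
        (L ℓ (R x) P - b x)) : ℂ) = 1 := by
        intro P _
        rw [sum_eq_zero (fun x _ => by rw [Pi.zero_apply, zero_mul]), AddChar.map_zero_eq_one]
      rw [sum_congr rfl this, sum_const, nsmul_eq_mul, mul_one]
    rw [h0] at hz
    have h1 : ((Pr k d).card : ℝ) ≤ ∑ u ∈ univ.erase (0 : κ → ZMod ℓ),
        ‖∑ P ∈ Pr k d, lc ℓ (M u) P‖ := by
      have h2 : ((Pr k d).card : ℂ) = - ∑ u ∈ univ.erase (0 : κ → ZMod ℓ), ∑ P ∈ Pr k d,
        (ZMod.stdAddChar (∑ x, u x * (L ℓ (R x) P - b x)) : ℂ) := by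
        linear_combination hz
      have h3 : ((Pr k d).card : ℝ) = ‖((Pr k d).card : ℂ)‖ := by
        rw [Complex.norm_natCast]
      rw [h3, h2, norm_neg]
      refine (norm_sum_le _ _).trans (sum_le_sum fun u _ => ?_)
      rw [hsp, norm_mul, norm_std, one_mul]
    have h2 : ∀ u ∈ univ.erase (0 : κ → ZMod ℓ), (d : ℝ) * ‖∑ P ∈ Pr k d, lc ℓ (M u) P‖ ≤
        (5 * (ℓ * W : ℕ) + 2) * (Real.sqrt q) ^ d := by
      intro u hu
      have hu0 : u ≠ 0 := ne_of_mem_erase hu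
      have hMm : (M u).Monic := monic_prod_of_monic _ _ fun x _ => (hR.mon x).pow _
      let Sp : Finset κ := univ.filter fun x => u x ≠ 0
      have hSp : Sp.Nonempty := by
        obtain ⟨x, hx⟩ := Function.ne_iff.1 hu0
        exact ⟨x, mem_filter.2 ⟨mem_univ _, hx⟩⟩
      have hMS : M u = ∏ x ∈ Sp, R x ^ (u x).val := by
        change ∏ x, R x ^ (u x).val = _
        rw [prod_filter]
        refine prod_congr rfl fun x _ => ?_
        by_cases hx : u x = 0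
        · rw [if_neg (not_not.2 hx), hx, ZMod.val_zero, pow_zero]
        · rw [if_pos hx]
      have hpos : ∀ x ∈ Sp, 0 < (u x).val ∧ (u x).val < ℓ := by
        intro x hx
        refine ⟨Nat.pos_of_ne_zero fun h => (mem_filter.1 hx).2 ?_, ZMod.val_lt _⟩
        exact (ZMod.val_eq_zero _).1 h
      have hnp : ∀ (c : k) (h : k[X]), M u ≠ C c * h ^ ℓ := by
        intro c h
        rw [hMS]
        exact prod_not_pow ℓ Sp hSp R _ hpos (fun x _ => hR.mon x) (fun x _ => hR.irr x)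
          (fun x _ y _ e => hR.inj e) c h
      have hMd : (M u).natDegree = ∑ x, (u x).val * (R x).natDegree := by
        change (∏ x, R x ^ (u x).val).natDegree = _
        rw [natDegree_prod_of_monic _ _ fun x _ => (hR.mon x).pow _]
        exact sum_congr rfl fun x _ => (hR.mon x).natDegree_pow _
      have hM1 : 1 ≤ (M u).natDegree := by
        rw [hMd]
        obtain ⟨x, hx⟩ := hSp
        have h3 : 1 ≤ (u x).val * (R x).natDegree :=
          Nat.mul_pos (hpos x hx).1 (hR.irr x).natDegree_pos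
        exact h3.trans (single_le_sum (f := fun x => (u x).val * (R x).natDegree)
          (fun _ _ => Nat.zero_le _) (mem_univ x))
      have hMW : (M u).natDegree ≤ ℓ * W := by
        rw [hMd, hW, mul_sum]
        exact sum_le_sum fun x _ => Nat.mul_le_mul_right _ (ZMod.val_lt _).le
      have h3 := S.char_sum (M u) hMm hM1 hnp d hd1
      rw [← hq] at h3
      refine h3.trans (mul_le_mul_of_nonneg_right ?_ (pow_nonneg (Real.sqrt_nonneg _) _))
      have h4 : ((M u).natDegree : ℝ) ≤ ((ℓ * W : ℕ) : ℝ) := by exact_mod_cast hMW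
      linarith
    have h3 : (d : ℝ) * (Pr k d).card ≤ A * (Real.sqrt q) ^ d := by
      calc (d : ℝ) * (Pr k d).card ≤ d * ∑ u ∈ univ.erase (0 : κ → ZMod ℓ),
            ‖∑ P ∈ Pr k d, lc ℓ (M u) P‖ := mul_le_mul_of_nonneg_left h1 (Nat.cast_nonneg _)
        _ = ∑ u ∈ univ.erase (0 : κ → ZMod ℓ), d * ‖∑ P ∈ Pr k d, lc ℓ (M u) P‖ := mul_sum _ _ _
        _ ≤ ∑ u ∈ univ.erase (0 : κ → ZMod ℓ), (5 * (ℓ * W : ℕ) + 2) * (Real.sqrt q) ^ d :=
            sum_le_sum h2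
        _ ≤ ∑ u : κ → ZMod ℓ, (5 * (ℓ * W : ℕ) + 2) * (Real.sqrt q) ^ d :=
            sum_le_sum_of_subset_of_nonneg (erase_subset _ _) fun _ _ _ => by positivity
        _ = A * (Real.sqrt q) ^ d := by
            rw [sum_const, card_univ, nsmul_eq_mul, hA]
            ring
    have h4 := card_Pr_ge (k := k) hk d hd1
    rw [← hq] at h4
    linarith
  -- contradiction
  have hs1 : 1 < Real.sqrt q := by
    rw [Real.lt_sqrt (by norm_num)]
    linarith
  obtain ⟨j, hj⟩ := pow_unbounded_of_one_lt (2 + A) hs1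
  obtain ⟨d, hd⟩ : ∃ d, d = ℓ * (j + N + W + 1) := ⟨_, rfl⟩
  have hl1 : 1 * (j + N + W + 1) ≤ ℓ * (j + N + W + 1) := Nat.mul_le_mul_right _ hℓ.out.pos
  have h1 := key d (by omega) (by omega) ⟨_, hd⟩
  have h2 : q ^ d = (Real.sqrt q) ^ d * (Real.sqrt q) ^ d := by
    rw [← mul_pow, Real.mul_self_sqrt (by linarith)]
  rw [h2] at h1
  have h3 : 0 < (Real.sqrt q) ^ d := pow_pos (by linarith) _
  have h4 : (Real.sqrt q) ^ d ≤ 2 + A := le_of_mul_le_mul_right h1 h3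
  have h5 : (Real.sqrt q) ^ j ≤ (Real.sqrt q) ^ d := pow_le_pow_right₀ hs1.le (by omega)
  linarith

end

end Pool.Agent.D0H99.FT
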