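import Pool.Agent.D0H99.FT.Tw

/-!
Infinite towers over finite fields: the layers.
-/

set_option autoImplicit false
set_option linter.all false

open Polynomial IsDedekindDomain

namespace Pool.Agent.D0H99.FT

open Pool.Agent.Y713.SE (pencil)
open Pool.Agent.Y713.Jac (ShaPrimaryTrivial ShaTateTrivial)
open Pool.Agent.D0H99.EA (prim_scale fin_sep Killed killed_zero dT desc)

section
variable {k : Type} [Field k] {K : Type} [Field K] [Algebra k[X] K] [IsFractionRing k[X] K]

theorem pencil_splits {h g : k[X]} (hs : h.Splits) : (pencil K h g).Splits := by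
  unfold pencil
  exact (hs.map _).mul (Splits.X_sub_C _)

theorem pencil_sep {h g : k[X]} (hsep : h.Separable) (hd : 0 < h.natDegree)
    (hg : 0 < g.natDegree) : (pencil K h g).Separable := by
  unfold pencil
  refine Separable.mul hsep.map (separable_X_sub_C) ?_
  rw [isCoprime_comm, (irreducible_X_sub_C _).coprime_iff_not_dvd, dvd_iff_isRoot, IsRoot.def,
    eval_map, ← hom_eval₂, map_eq_zero_iff _ (IsFractionRing.injective k[X] K)]
  intro h0
  have h1 : (h.comp g).natDegree = h.natDegree * g.natDegree := natDegree_comp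
  have h2 : h.comp g = 0 := h0
  rw [h2, natDegree_zero] at h1
  exact absurd h1.symm (Nat.mul_pos hd hg).ne'

theorem pencil_deg {h g : k[X]} (hh : h ≠ 0) : (pencil K h g).natDegree = h.natDegree + 1 := by
  unfold pencil
  have h1 : h.map ((algebraMap k[X] K).comp C) ≠ 0 := (Polynomial.map_ne_zero_iff
    (RingHom.injective _)).2 hh
  rw [natDegree_mul h1 (X_sub_C_ne_zero _), natDegree_X_sub_C,
    natDegree_map_eq_of_injective (RingHom.injective _)]

end

theorem towers {ℓ : ℕ} (hℓ : ℓ.Prime) {k : Type} [Field k] [Finite k]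
    (hl2 : ∃ z : k, z ^ ℓ = -1) (h2 : (2 : k) ≠ 0) (hlk : ℓ ∣ Nat.card k - 1) :
    ∃ D : ℕ → k[X], Function.Injective D ∧ (∀ j, (D j).Monic ∧ Irreducible (D j)) ∧
      ∀ h g : k[X], h.Splits → h.Separable → 2 ≤ h.natDegree → ¬ ℓ ∣ h.natDegree + 1 →
        ¬ ℓ ∣ g.natDegree → (∀ c, h.IsRoot c → Irreducible (g - C c)) → ∃ j0 : ℕ,
      ∀ (L : Type) [Field L] [Algebra (RatFunc k) L] [Algebra k[X] L]
        [IsScalarTower k[X] (RatFunc k) L] (m r : ℕ) (c : k) (a : ℕ → ℕ) (c' : Fin r → k)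
        (e : Fin r → ℕ → ℕ) (u : Fin r → L) (_ : c ≠ 0) (_ : ∀ i, c' i ≠ 0)
        (_ : ∀ i, u i ^ ℓ = algebraMap (RatFunc k) L (algebraMap k[X] (RatFunc k)
            (C (c' i) * ∏ j ∈ Finset.range m, D (j0 + j) ^ e i j)))
        (_ : IntermediateField.adjoin (RatFunc k) (Set.range u) = ⊤)
        (R : Type) [CommRing R] [IsDedekindDomain R] [Algebra R L] [IsFractionRing R L]
        [Algebra k[X] R] [IsScalarTower k[X] R L] [IsIntegralClosure R k[X] L],
        Killed ℓ r ((C (algebraMap k[X] (RatFunc k)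
          (C c * ∏ j ∈ Finset.range m, D (j0 + j) ^ a j)) * pencil (RatFunc k) h g).map
            (algebraMap (RatFunc k) L)) R := by
  classical
  have hk0 : ((ℓ : ℕ) : k) ≠ 0 := by
    letI : Fintype k := Fintype.ofFinite k
    intro h
    have hcard : Nat.card k = Fintype.card k := Nat.card_eq_fintype_card
    rw [hcard] at hlk
    have hq1 : 1 < Fintype.card k := Fintype.one_lt_card
    obtain ⟨r, hr⟩ := hlk
    have h1 : ((Fintype.card k - 1 : ℕ) : k) = 0 := by rw [hr, Nat.cast_mul, h, zero_mul]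
    rw [Nat.cast_sub hq1.le, FiniteField.cast_card_eq_zero, Nat.cast_one, zero_sub] at h1
    exact one_ne_zero (neg_eq_zero.1 h1)
  obtain ⟨ζ, hζ⟩ : ∃ ζ : k, IsPrimitiveRoot ζ ℓ := by
    letI : Fintype k := Fintype.ofFinite k
    have hcard : Nat.card k = Fintype.card k := Nat.card_eq_fintype_card
    rw [hcard] at hlk
    have hq1 : 1 < Fintype.card k := Fintype.one_lt_card
    obtain ⟨g, hg⟩ := IsCyclic.exists_generator (α := kˣ)
    have ho : orderOf g = Fintype.card k - 1 := by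
      rw [orderOf_eq_card_of_forall_mem_zpowers hg, Nat.card_eq_fintype_card, Fintype.card_units]
    obtain ⟨r, hr⟩ := hlk
    have hr0 : 0 < Fintype.card k - 1 := by omega
    have h1 : IsPrimitiveRoot g (Fintype.card k - 1) := ho ▸ IsPrimitiveRoot.orderOf g
    have h3 : IsPrimitiveRoot (g ^ r) ℓ := by
      exact h1.pow hr0 (by rw [hr, mul_comm])
    exact ⟨((g ^ r : kˣ) : k), IsPrimitiveRoot.coe_units_iff.2 h3⟩
  obtain ⟨D', hinjD, hD', hall'⟩ := twists hℓ hl2 h2 hlk
  refine ⟨D', hinjD, hD', ?_⟩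
  intro h g hs hsep hd2 hn hg hirr
  obtain ⟨j0, hall⟩ := hall' h g hs hsep hd2 hn hg hirr
  have hgpos : 0 < g.natDegree := Nat.pos_of_ne_zero fun h => hg (h ▸ dvd_zero _)
  have hh0 : h ≠ 0 := hsep.ne_zero
  refine ⟨j0, ?_⟩
  obtain ⟨D, hDD⟩ : ∃ D : ℕ → k[X], D = fun j => D' (j0 + j) := ⟨_, rfl⟩
  have hD : ∀ j, (D j).Monic ∧ Irreducible (D j) := by
    intro j
    rw [hDD]
    exact hD' _
  have hpp : ∀ (m : ℕ) (a : ℕ → ℕ), ∏ j ∈ Finset.range m, D' (j0 + j) ^ a j =
      ∏ j ∈ Finset.range m, D j ^ a j := by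
    intro m a
    rw [hDD]
  simp only [hpp] at hall ⊢
  intro L _ _ _ _ m r c a c' e u hc hc' hu hgen R _ _ _ _ _ _ _
  have hinj : Function.Injective ((algebraMap k[X] (RatFunc k)).comp (C : k →+* k[X])) :=
    RingHom.injective _
  have hK : ((ℓ : ℕ) : RatFunc k) ≠ 0 := by
    have h1 := (map_ne_zero_iff _ hinj).2 hk0
    rwa [map_natCast] at h1
  have hne : ∀ (c : k) (a : ℕ → ℕ), c ≠ 0 → algebraMap k[X] (RatFunc k)
      (C c * ∏ j ∈ Finset.range m, D j ^ a j) ≠ 0 := by
    intro c a hc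
    rw [Ne, map_eq_zero_iff _ (IsFractionRing.injective k[X] (RatFunc k))]
    exact mul_ne_zero (C_ne_zero.2 hc) (Finset.prod_ne_zero_iff.2 fun j _ =>
      pow_ne_zero _ (hD j).2.ne_zero)
  let d : Fin r → RatFunc k := fun i => algebraMap k[X] (RatFunc k)
    (C (c' i) * ∏ j ∈ Finset.range m, D j ^ e i j)
  have hd : ∀ i, d i ≠ 0 := fun i => hne _ _ (hc' i)
  obtain ⟨hfd, hse⟩ := fin_sep hℓ.pos hK (d := d) hu hd hgen
  haveI : Algebra.IsIntegral k[X] R := IsIntegralClosure.isIntegral_algebra k[X] L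
  have hprim : ∀ t : Fin r → Fin ℓ, ShaPrimaryTrivial ℓ
      (C (dT d t) * (C (algebraMap k[X] (RatFunc k)
        (C c * ∏ j ∈ Finset.range m, D j ^ a j)) * pencil (RatFunc k) h g)) k[X] := by
    intro t
    have h1 := hall (RatFunc k) (c * ∏ i, c' i ^ (t i : ℕ)) m
      (fun j => a j + ∑ i, e i j * (t i : ℕ))
      (mul_ne_zero hc (Finset.prod_ne_zero_iff.2 fun i _ => pow_ne_zero _ (hc' i)))
    have h2 : C (algebraMap k[X] (RatFunc k)
        (C (c * ∏ i, c' i ^ (t i : ℕ)) *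
          ∏ j ∈ Finset.range m, D j ^ (a j + ∑ i, e i j * (t i : ℕ)))) * pencil (RatFunc k) h g =
        C (dT d t) * (C (algebraMap k[X] (RatFunc k)
        (C c * ∏ j ∈ Finset.range m, D j ^ a j)) * pencil (RatFunc k) h g) := by
      rw [← mul_assoc, ← C_mul]
      congr 2
      unfold dT
      have h6 : ∏ i, d i ^ (t i : ℕ) = algebraMap k[X] (RatFunc k)
          (∏ i, (C (c' i) * ∏ j ∈ Finset.range m, D j ^ e i j) ^ (t i : ℕ)) := by
        rw [map_prod]
        exact Finset.prod_congr rfl fun i _ => by rw [map_pow]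
      rw [h6, ← map_mul]
      congr 1
      have h3 : ∏ j ∈ Finset.range m, D j ^ (a j + ∑ i, e i j * (t i : ℕ)) =
          (∏ j ∈ Finset.range m, D j ^ a j) *
            ∏ j ∈ Finset.range m, ∏ i, D j ^ (e i j * (t i : ℕ)) := by
        rw [← Finset.prod_mul_distrib]
        refine Finset.prod_congr rfl fun j _ => ?_
        rw [Finset.prod_pow_eq_pow_sum, ← pow_add]
      have h5 : ∏ i, (C (c' i) * ∏ j ∈ Finset.range m, D j ^ e i j) ^ (t i : ℕ) =
          C (∏ i, c' i ^ (t i : ℕ)) *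
            ∏ j ∈ Finset.range m, ∏ i, D j ^ (e i j * (t i : ℕ)) := by
        rw [Finset.prod_comm, map_prod, ← Finset.prod_mul_distrib]
        refine Finset.prod_congr rfl fun i _ => ?_
        rw [mul_pow, C_pow, ← Finset.prod_pow]
        congr 1
        exact Finset.prod_congr rfl fun j _ => by rw [← pow_mul]
      rw [h3, h5, C_mul]
      ring
    rwa [h2] at h1
  have hE0 := hne c a hc
  set E : RatFunc k := algebraMap k[X] (RatFunc k) (C c * ∏ j ∈ Finset.range m, D j ^ a j)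
  have hF1 : (C E * pencil (RatFunc k) h g).Splits := (Splits.C _).mul (pencil_splits hs)
  have hF2 : (C E * pencil (RatFunc k) h g).Separable := by
    refine (pencil_sep (K := RatFunc k) hsep (by omega) hgpos).of_dvd ⟨C (E⁻¹), ?_⟩
    rw [mul_comm (C E), mul_assoc, ← C_mul, mul_inv_cancel₀ hE0, C_1, mul_one]
  have hF3 : ¬ ℓ ∣ (C E * pencil (RatFunc k) h g).natDegree := by
    rwa [natDegree_C_mul hE0, pencil_deg hh0]
  have hζ' : IsPrimitiveRoot (algebraMap k[X] (RatFunc k) (C ζ)) ℓ :=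
    hζ.map_of_injective (f := (algebraMap k[X] (RatFunc k)).comp C) hinj
  have key := desc (R := k[X]) (R' := R) hℓ hK hζ' hu hd hgen
    hF1 hF2 hF3 (m := 0) (fun t => killed_zero (hprim t))
  rwa [zero_add, Fintype.card_fin] at key

end Pool.Agent.D0H99.FT
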