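import Pool.Agent.Y547.SZ.Rep
import Pool.Agent.Y547.SZ.Comb
import Pool.Agent.Y164.SZ.Rp
import Pool.Agent.Y713.SE.Pull

/-!
Twists of a pencil `y ^ ℓ = h(x) (x - g(t))` over `k(t)`, `k` a finite field: valuations and
representations modulo `ℓ`-th powers.
-/

set_option autoImplicit false
set_option linter.all false

open Polynomial IsDedekindDomain

namespace Pool.Agent.D0H99.FT

open Finset
open Pool.Agent.Y164.SZ
open Pool.Agent.Y713.SE (hp Pw mem_hp eq_hp val_hp_self not_pw_exp val_eq_one_iff val_C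
  exists_gen)
open Pool.Agent.Y164.PS (Fam el el' el_eq el'_not_dvd)

section
variable {k K : Type} [Field k] [Fintype k] [DecidableEq k] [Field K] [Algebra k[X] K]
  [IsFractionRing k[X] K]
variable {κ : Type} [Fintype κ] {R : κ → k[X]}

theorem val_el (hR : Fam R) {r : k} (hr : r ≠ 0) (n : κ → ℕ) (x : κ) :
    (hp (R x) (hR.irr x)).valuation K (algebraMap k[X] K (el R r n)) =
      (WithZero.exp (-1 : ℤ)) ^ n x := by
  have hnm : el' R x r n ∉ (hp (R x) (hR.irr x)).asIdeal := fun hm =>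
    el'_not_dvd hR x hr n ((mem_hp _ _).1 hm)
  rw [el_eq x, map_mul, map_mul, map_pow, map_pow, val_hp_self,
      (val_eq_one_iff _ _).2 hnm, mul_one]

theorem val_el_one {r : k} (hr : r ≠ 0) (n : κ → ℕ) {v : HeightOneSpectrum k[X]}
    (hv : ∀ x, R x ∉ v.asIdeal) : v.valuation K (algebraMap k[X] K (el R r n)) = 1 := by
  rw [val_eq_one_iff, el]
  intro h
  rcases v.isPrime.mem_or_mem h with h1 | h1
  · exact (val_eq_one_iff (K := K) _ _).1 (val_C hr) h1
  · rw [v.isPrime.prod_mem_iff] at h1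
    obtain ⟨x, -, hx⟩ := h1
    exact hv x (v.isPrime.mem_of_pow_mem _ hx)

end

/-- the branch points -/
noncomputable def br {k : Type} [Field k] {m : ℕ} (g : k[X]) (c : Fin m → k) :
    Fin (m + 1) → k[X] := Fin.cons g (fun i => C (c i))

/-- the indicator of the nodes, as a natural number -/
def nu {m : ℕ} (i j : Fin (m + 1)) (s : Fin m) : ℕ :=
  if (0 = i ∧ s.succ = j) ∨ (0 = j ∧ s.succ = i) then 1 else 0

/-- the data of a twist of a pencil -/
structure Dta (ℓ : ℕ) [Fact ℓ.Prime] {k : Type} [Field k] [Fintype k] [DecidableEq k] {m : ℕ}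
    (c : Fin m → k) (g : k[X]) (P : Fin m → k[X]) {ι : Type} [Fintype ι] (T : ι → k[X])
    (t : ι → ℕ) : Prop where
  S : SYM0 ℓ k
  hl : ∃ z : k, z ^ ℓ = -1
  hlk : (ℓ : k) ≠ 0
  hm : 2 ≤ m
  hn : ¬ ℓ ∣ m + 1
  hc : Function.Injective c
  hg : ¬ ℓ ∣ g.natDegree
  hP : ∀ a, g - C (c a) = C g.leadingCoeff * P a
  fam : Fam (Sum.elim T P)
  ht : ∀ x, ¬ ℓ ∣ t x
  hTd : ∀ x, ((T x).natDegree : ZMod ℓ) = 0
  hTT : ∀ x y, x ≠ y → L ℓ (T y) (T x) = 0
  hPT : ∀ a x, L ℓ (P a) (T x) ≠ 0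

namespace Dta

variable {ℓ : ℕ} [hℓ : Fact ℓ.Prime] {k : Type} [Field k] [Fintype k] [DecidableEq k] {m : ℕ}
  {c : Fin m → k} {g : k[X]} {P : Fin m → k[X]} {ι : Type} [Fintype ι] {T : ι → k[X]} {t : ι → ℕ}
  (H : Dta ℓ c g P T t)

include H

theorem gpos : 0 < g.natDegree := Nat.pos_of_ne_zero fun h => H.hg (h ▸ dvd_zero _)

theorem lc_ne : g.leadingCoeff ≠ 0 := by
  intro h
  have h1 := H.gpos
  rw [leadingCoeff_eq_zero.1 h, natDegree_zero] at h1
  exact lt_irrefl _ h1

theorem ch_neg (x : k) (hx : x ≠ 0) : ch ℓ (-x) = ch ℓ x := by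
  have h1 : ch ℓ (-1 : k) = 0 := by
    obtain ⟨z, hz⟩ := H.hl
    exact (H.S.ch_zero_iff (-1) (neg_ne_zero.2 one_ne_zero)).2 ⟨z, hz.symm⟩
  have h2 := H.S.ch_mul (-1) x (neg_ne_zero.2 one_ne_zero) hx
  rw [h1, zero_add, neg_one_mul] at h2
  exact h2

theorem deg_P (a : Fin m) : (P a).natDegree = g.natDegree := by
  have h1 := congrArg natDegree (H.hP a)
  rw [natDegree_sub_C, natDegree_C_mul H.lc_ne] at h1
  exact h1.symm

theorem deg_P_ne (a : Fin m) : ((P a).natDegree : ZMod ℓ) ≠ 0 := by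
  rw [H.deg_P, Ne, ZMod.natCast_eq_zero_iff]
  exact H.hg

theorem br_ne {i j : Fin (m + 1)} (h : i ≠ j) : br g c i ≠ br g c j := by
  have h0 : ∀ a : Fin m, g ≠ C (c a) := fun a h1 => by
    have h2 := H.gpos
    rw [h1, natDegree_C] at h2
    exact lt_irrefl _ h2
  rcases Fin.eq_zero_or_eq_succ i with rfl | ⟨a, rfl⟩ <;>
    rcases Fin.eq_zero_or_eq_succ j with rfl | ⟨b, rfl⟩
  · exact absurd rfl h
  · exact h0 b
  · exact fun h1 => h0 a h1.symm
  · intro h1
    exact h (congrArg Fin.succ (H.hc (C_injective h1)))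

/-- the factorization of the differences -/
theorem diff {i j : Fin (m + 1)} (h : i ≠ j) : br g c i - br g c j =
    el (Sum.elim T P) (br g c i - br g c j).leadingCoeff (Sum.elim (fun _ => 0) (nu i j)) := by
  have hel : ∀ (r : k) (n : Fin m → ℕ), el (Sum.elim T P) r (Sum.elim (fun _ => 0) n) =
      C r * ∏ s, P s ^ n s := by
    intro r n
    rw [el, Fintype.prod_sum_type]
    simp
  have hsingle : ∀ (a : Fin m) (n : Fin m → ℕ), (∀ s, n s = if s = a then 1 else 0) →
      ∏ s, P s ^ n s = P a := by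
    intro a n hn
    rw [Finset.prod_eq_single a]
    · rw [hn, if_pos rfl, pow_one]
    · intro s _ hs
      rw [hn, if_neg hs, pow_zero]
    · intro h
      exact absurd (mem_univ _) h
  rw [hel]
  rcases Fin.eq_zero_or_eq_succ i with rfl | ⟨a, rfl⟩ <;>
    rcases Fin.eq_zero_or_eq_succ j with rfl | ⟨b, rfl⟩
  · exact absurd rfl h
  · have e1 : br g c 0 - br g c b.succ = C g.leadingCoeff * P b := H.hP b
    have e2 : (g - C (c b)).leadingCoeff = g.leadingCoeff := by
      apply leadingCoeff_sub_of_degree_lt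
      exact lt_of_le_of_lt degree_C_le (natDegree_pos_iff_degree_pos.1 H.gpos)
    have e3 : (br g c 0 - br g c b.succ).leadingCoeff = g.leadingCoeff := e2
    rw [e3, hsingle b, e1]
    intro s
    unfold nu
    by_cases hs : s = b
    · rw [if_pos hs, if_pos (Or.inl ⟨rfl, congrArg Fin.succ hs⟩)]
    · rw [if_neg hs, if_neg]
      rintro (⟨-, h1⟩ | ⟨h1, -⟩)
      · exact hs (Fin.succ_injective _ h1)
      · exact Fin.succ_ne_zero _ h1.symm
  · have e1 : br g c a.succ - br g c 0 = - (g - C (c a)) := by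
      change C (c a) - g = _
      ring
    have e2 : (g - C (c a)).leadingCoeff = g.leadingCoeff := by
      apply leadingCoeff_sub_of_degree_lt
      exact lt_of_le_of_lt degree_C_le (natDegree_pos_iff_degree_pos.1 H.gpos)
    rw [e1, leadingCoeff_neg, e2, hsingle a, H.hP, C_neg, neg_mul]
    intro s
    unfold nu
    by_cases hs : s = a
    · rw [if_pos hs, if_pos (Or.inr ⟨rfl, congrArg Fin.succ hs⟩)]
    · rw [if_neg hs, if_neg]
      rintro (⟨h1, -⟩ | ⟨-, h1⟩)
      · exact Fin.succ_ne_zero _ h1.symm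
      · exact hs (Fin.succ_injective _ h1)
  · have e1 : br g c a.succ - br g c b.succ = C (c a - c b) := by
      change C (c a) - C (c b) = _
      rw [C_sub]
    rw [e1, leadingCoeff_C, Finset.prod_eq_one, mul_one]
    intro s _
    unfold nu
    rw [if_neg, pow_zero]
    rintro (⟨h1, -⟩ | ⟨h1, -⟩) <;> exact Fin.succ_ne_zero _ h1.symm

theorem lc_diff {i j : Fin (m + 1)} (h : i ≠ j) : (br g c i - br g c j).leadingCoeff ≠ 0 :=
  leadingCoeff_ne_zero.2 (sub_ne_zero.2 (H.br_ne h))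

end Dta

/-- the symbols of the constants of the differences -/
noncomputable def cs (ℓ : ℕ) {k : Type} [Field k] [Fintype k] {m : ℕ} (g : k[X]) (c : Fin m → k)
    (i j : Fin (m + 1)) : ZMod ℓ := ch ℓ (br g c i - br g c j).leadingCoeff

namespace Dta

variable {ℓ : ℕ} [hℓ : Fact ℓ.Prime] {k : Type} [Field k] [Fintype k] [DecidableEq k] {m : ℕ}
  {c : Fin m → k} {g : k[X]} {P : Fin m → k[X]} {ι : Type} [Fintype ι] {T : ι → k[X]} {t : ι → ℕ}
  (H : Dta ℓ c g P T t)

include H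

theorem cs_symm (i j : Fin (m + 1)) : cs ℓ g c i j = cs ℓ g c j i := by
  by_cases h : i = j
  · rw [h]
  · have h1 : br g c i - br g c j = - (br g c j - br g c i) := by ring
    unfold cs
    rw [h1, leadingCoeff_neg, H.ch_neg _ (H.lc_diff (Ne.symm h))]

variable (K : Type) [Field K] [Algebra k[X] K] [IsFractionRing k[X] K]

theorem rep_diff {i j : Fin (m + 1)} (h : i ≠ j) :
    IsRep ℓ (Sum.elim T P) (algebraMap k[X] K (br g c i) - algebraMap k[X] K (br g c j))
      (cs ℓ g c i j) (Sum.elim (fun _ => 0) (fun s => mu ℓ (fun _ => 0) Fin.succ i j s)) := by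
  have h0 := isRep_el (ℓ := ℓ) (K := K) (R := Sum.elim T P) (H.lc_diff h)
    (Sum.elim (fun _ => 0) (nu i j))
  rw [← H.diff h, map_sub] at h0
  refine h0.congr rfl ?_
  rintro (x | s)
  · simp
  · change ((nu i j s : ℕ) : ZMod ℓ) = mu ℓ (fun _ => 0) Fin.succ i j s
    unfold nu mu
    split_ifs <;> simp

theorem rep_twist {r : k} (hr : r ≠ 0) :
    IsRep ℓ (Sum.elim T P) (algebraMap k[X] K (C r * ∏ x, T x ^ t x)) (ch ℓ r)
      (Sum.elim (fun x => (t x : ZMod ℓ)) (fun _ => 0)) := by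
  have h := isRep_el (ℓ := ℓ) (K := K) (R := Sum.elim T P) hr (Sum.elim t (fun _ => 0))
  have h1 : el (Sum.elim T P) r (Sum.elim t (fun _ => 0)) = C r * ∏ x, T x ^ t x := by
    rw [el, Fintype.prod_sum_type]
    simp
  rw [h1] at h
  refine h.congr rfl ?_
  rintro (x | x) <;> simp

variable {K}

theorem rep_Tm (D0 : Pool.Agent.Y713.SE.Dat ℓ (m + 1) K) {r : k} (hr : r ≠ 0)
    (hδ : D0.δ = algebraMap k[X] K (C r * ∏ x, T x ^ t x))
    (he : ∀ i, D0.e i = algebraMap k[X] K (br g c i)) (mv : Fin (m + 1) → ℕ) (i : Fin (m + 1)) :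
    IsRep ℓ (Sum.elim T P) (Tm D0 mv i)
      (∑ j, ((mv j : ZMod ℓ) - mv i) * cs ℓ g c i j - (mv i : ZMod ℓ) * ch ℓ r)
      (Sum.elim (fun x => - ((mv i : ZMod ℓ) * t x))
        (fun s => - (tf ℓ 0 s.succ i * ((mv 0 : ZMod ℓ) - mv s.succ)))) := by
  classical
  have hdiff : ∀ j, j ≠ i → IsRep ℓ (Sum.elim T P) (D0.e i - D0.e j) (cs ℓ g c i j)
      (Sum.elim (fun _ => 0) (fun s => mu ℓ (fun _ => 0) Fin.succ i j s)) := by
    intro j hj
    rw [he, he]
    exact H.rep_diff K hj.symm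
  have h1 : ∀ j ∈ (univ : Finset (Fin (m + 1))), IsRep ℓ (Sum.elim T P)
      ((if j = i then (D0.δ * ∏ l ∈ univ.erase i, (D0.e i - D0.e l))⁻¹ else D0.e i - D0.e j) ^ mv j)
      ((mv j : ZMod ℓ) * (if j = i then - ∑ l ∈ univ.erase i, cs ℓ g c i l else cs ℓ g c i j) +
        (mv j : ZMod ℓ) * (if j = i then - ch ℓ r else 0))
      (Sum.elim (fun x => (mv j : ZMod ℓ) * (if j = i then (- (t x : ZMod ℓ)) else 0))
        (fun s => (mv j : ZMod ℓ) * (if j = i then - ∑ l ∈ univ.erase i,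
            mu ℓ (fun _ => 0) Fin.succ i l s else mu ℓ (fun _ => 0) Fin.succ i j s))) := by
    intro j _
    by_cases hj : j = i
    · simp only [if_pos hj]
      have h2 := (H.rep_twist K hr).mul H.S
        (IsRep.prod H.S (univ.erase i) (fun l hl => hdiff l (ne_of_mem_erase hl)))
      rw [← hδ] at h2
      refine ((h2.inv H.S H.fam).pow H.S (mv j)).congr ?_ ?_
      · ring
      · rintro (x | s)
        · simp only [Sum.elim_inl, sum_const_zero, add_zero]
        · simp only [Sum.elim_inr, zero_add]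
    · simp only [if_neg hj]
      refine ((hdiff j hj).pow H.S (mv j)).congr ?_ ?_
      · rw [mul_zero, add_zero]
      · rintro (x | s)
        · simp only [Sum.elim_inl]
        · simp only [Sum.elim_inr]
  have h3 := IsRep.prod H.S univ h1
  have hs : ∀ y : ZMod ℓ, ∑ j, (mv j : ZMod ℓ) * (if j = i then y else 0) = mv i * y := by
    intro y
    rw [Finset.sum_eq_single i]
    · rw [if_pos rfl]
    · intro j _ hj
      rw [if_neg hj, mul_zero]
    · intro h
      exact absurd (mem_univ _) h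
  have e : Tm D0 mv i = ∏ j, (if j = i then (D0.δ * ∏ l ∈ univ.erase i,
      (D0.e i - D0.e l))⁻¹ else D0.e i - D0.e j) ^ mv j := rfl
  rw [e]
  refine h3.congr ?_ ?_
  · rw [sum_add_distrib, sum_special i (fun j => (mv j : ZMod ℓ)) (fun j => cs ℓ g c i j)]
    rw [hs]
    ring
  · rintro (x | s)
    · simp only [Sum.elim_inl]
      rw [hs]
      ring
    · simp only [Sum.elim_inr]
      rw [sum_special i (fun j => (mv j : ZMod ℓ)) (fun j => mu ℓ (fun _ => 0) Fin.succ i j s)]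
      refine Eq.trans ?_ (Pool.Agent.Y547.SZ.key (p := fun _ : Fin m => (0 : Fin (m + 1)))
        (q := Fin.succ) (fun s => (Fin.succ_ne_zero s).symm) (fun j => (mv j : ZMod ℓ)) i s)
      refine sum_congr rfl fun j _ => ?_
      rw [mul_comm]

end Dta

end Pool.Agent.D0H99.FT
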