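import Pool.Agent.D0H99.FT.Cr
import Pool.Agent.D0H99.FT.Ex
import Pool.Agent.D0H99.EA.Scale
import Pool.Agent.D0H99.EA.Fin2
import Pool.Agent.Y713.SE.Pull
import Pool.Agent.D0H99.FT.Sy

/-!
Infinite towers over finite fields.
-/

set_option autoImplicit false
set_option linter.all false

open Polynomial IsDedekindDomain

namespace Pool.Agent.D0H99.FT

open Finset
open Pool.Agent.Y164.SZ
open Pool.Agent.Y713.SE (pencil tDat)
open Pool.Agent.Y164.PS (Fam)
open Pool.Agent.Y713.Jac (ShaPrimaryTrivial ShaTateTrivial)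
open Pool.Agent.D0H99.EA (prim_scale)

/-- a separable polynomial which splits -/
theorem split_prod {k : Type} [Field k] {h : k[X]} (hs : h.Splits) (hsep : h.Separable) :
    ∃ c : Fin h.natDegree → k, Function.Injective c ∧ (∀ i, h.IsRoot (c i)) ∧
      h = C h.leadingCoeff * ∏ i, (X - C (c i)) := by
  classical
  have hnd : h.roots.Nodup := nodup_roots hsep
  have hcard : h.roots.toFinset.card = h.natDegree := by
    rw [Multiset.toFinset_card_of_nodup hnd, ← hs.natDegree_eq_card_roots]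
  let eqv := h.roots.toFinset.equivFinOfCardEq hcard
  refine ⟨fun i => (eqv.symm i : k), Subtype.val_injective.comp eqv.symm.injective, fun i =>
    (mem_roots'.1 (Multiset.mem_toFinset.1 (eqv.symm i).2)).2, ?_⟩
  conv_lhs => rw [hs.eq_prod_roots]
  congr 1
  have h3 : (h.roots.map fun a => X - C a).prod = ∏ a ∈ h.roots.toFinset, (X - C a) := by
    rw [Finset.prod_multiset_map_count]
    refine Finset.prod_congr rfl fun a ha => ?_
    rw [Multiset.count_eq_one_of_mem hnd (Multiset.mem_toFinset.1 ha), pow_one]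
  rw [h3, ← Finset.prod_coe_sort]
  exact (Equiv.prod_comp eqv.symm (fun a : h.roots.toFinset => (X - C (a : k)))).symm

section
variable {ℓ : ℕ} [hℓ : Fact ℓ.Prime] {k : Type} [Field k] [Fintype k] [DecidableEq k]
variable {K : Type} [Field K] [Algebra k[X] K] [IsFractionRing k[X] K]

theorem Dta.primary {m : ℕ} {c : Fin m → k} {g : k[X]} {P : Fin m → k[X]} {ι : Type} [Fintype ι]
    {T : ι → k[X]} {t : ι → ℕ} (H : Dta ℓ c g P T t) [Nonempty ι] {ζ : k}
    (hζ : IsPrimitiveRoot ζ ℓ) {h : k[X]} (hlc : h.leadingCoeff ≠ 0)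
    (hfac : h = C h.leadingCoeff * ∏ i, (X - C (c i))) {r0 : k} (hr0 : r0 ≠ 0) :
    ShaPrimaryTrivial ℓ (C (algebraMap k[X] K (C r0 * ∏ x, T x ^ t x)) * pencil K h g) k[X] := by
  have hinj := IsFractionRing.injective k[X] K
  have he : Function.Injective fun i => algebraMap k[X] K (br g c i) := by
    intro i j hij
    by_contra hne
    exact H.br_ne hne (hinj hij)
  have hr1 : h.leadingCoeff * r0 ≠ 0 := mul_ne_zero hlc hr0
  have hδ0 : C (h.leadingCoeff * r0) * ∏ x, T x ^ t x ≠ 0 :=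
    mul_ne_zero (C_ne_zero.2 hr1) (Finset.prod_ne_zero_iff.2 fun x _ =>
      pow_ne_zero _ (H.fam.irr (Sum.inl x)).ne_zero)
  have hδ : algebraMap k[X] K (C (h.leadingCoeff * r0) * ∏ x, T x ^ t x) ≠ 0 := by
    rwa [Ne, map_eq_zero_iff _ hinj]
  let DD := tDat K hℓ.out H.hlk hζ hδ he H.hn
  have hf : DD.f = C (algebraMap k[X] K (C r0 * ∏ x, T x ^ t x)) * pencil K h g := by
    unfold Pool.Agent.Y713.SE.Dat.f pencil
    change C (algebraMap k[X] K (C (h.leadingCoeff * r0) * ∏ x, T x ^ t x)) *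
      ∏ i : Fin (m + 1), (X - C (algebraMap k[X] K (br g c i))) = _
    rw [Fin.prod_univ_succ]
    conv_rhs => rw [hfac]
    rw [Polynomial.map_mul, map_C, Polynomial.map_prod]
    simp only [Polynomial.map_sub, map_X, map_C, RingHom.comp_apply, map_mul, C_mul]
    have e1 : (br g c 0) = g := rfl
    have e2 : ∀ i : Fin m, br g c i.succ = C (c i) := fun i => rfl
    rw [e1]
    simp only [e2]
    ring
  rw [← hf]
  obtain ⟨p, hexp⟩ := ExpChar.exists K
  haveI := hexp
  haveI : ExpChar (SeparableClosure K) p :=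
    expChar_of_injective_algebraMap (algebraMap K (SeparableClosure K)).injective p
  haveI : ∀ v : HeightOneSpectrum k[X], ExpChar (SeparableClosure (v.adicCompletion K)) p := fun v =>
    expChar_of_injective_algebraMap
      (algebraMap K (SeparableClosure (v.adicCompletion K))).injective p
  apply DD.sha_primary (R := k[X])
  intro χ hc ht
  exact H.crit DD hr1 rfl (fun i => rfl) (p := p)
    (fun v => SeparableClosure (v.adicCompletion K)) χ hc ht

/-- the universal sequence of primes -/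
theorem exists_seq (S : SYM ℓ k) (hk : ringChar k ≠ 2) : ∃ D : ℕ → k[X], Function.Injective D ∧
      (∀ j, (D j).Monic ∧ Irreducible (D j) ∧ ℓ ∣ (D j).natDegree) ∧
      (∀ i j, i ≠ j → L ℓ (D i) (D j) = 0) ∧
      ∀ P : k[X], P.Monic → Irreducible P → ¬ ℓ ∣ P.natDegree → ∃ j0 : ℕ, ∀ j, j0 ≤ j →
        L ℓ P (D j) ≠ 0 := by
  classical
  -- enumeration of the primes of degree prime to `ℓ`
  let A : Set k[X] := {P | P.Monic ∧ Irreducible P ∧ ¬ ℓ ∣ P.natDegree}
  haveI : Countable k[X] := by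
    haveI : Countable k := Finite.to_countable
    rw [← Cardinal.mk_le_aleph0_iff]
    refine Polynomial.cardinalMk_le_max.trans ?_
    rw [max_le_iff]
    exact ⟨Cardinal.mk_le_aleph0_iff.2 inferInstance, le_rfl⟩
  haveI : Nonempty A := ⟨⟨X, monic_X, irreducible_X, by
    rw [natDegree_X]; exact hℓ.out.one_lt.ne' ∘ Nat.dvd_one.1⟩⟩
  obtain ⟨Q, hQ⟩ := exists_surjective_nat A
  have step : ∀ T : {T : Finset k[X] // ∀ π ∈ T, Irreducible π ∧ π.Monic ∧ ℓ ∣ π.natDegree},
      ∀ n : ℕ, ∃ D : k[X], D.Monic ∧ Irreducible D ∧ T.1.sup natDegree + 1 ≤ D.natDegree ∧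
        ℓ ∣ D.natDegree ∧ (∀ π ∈ T.1, L ℓ π D = 0) ∧ ∀ i < n, L ℓ (Q i : k[X]) D = 1 := by
    intro T n
    let U : Finset k[X] := T.1 ∪ (range n).image (fun i => (Q i : k[X]))
    have hU : Fam (fun x : U => (x : k[X])) := by
      refine ⟨fun x => ?_, fun x => ?_, Subtype.val_injective⟩
      · rcases mem_union.1 x.2 with h | h
        · exact (T.2 _ h).2.1
        · obtain ⟨a, -, ha⟩ := mem_image.1 h
          rw [← ha]
          exact (Q a).2.1
      · rcases mem_union.1 x.2 with h | h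
        · exact (T.2 _ h).1
        · obtain ⟨a, -, ha⟩ := mem_image.1 h
          rw [← ha]
          exact (Q a).2.2.1
    obtain ⟨D, h1, h2, h3, h4, h5⟩ := exists_prime S hk hU
      (fun x => if (x : k[X]) ∈ T.1 then 0 else 1) (T.1.sup natDegree + 1)
    refine ⟨D, h1, h2, h3, h4, fun π hπ => ?_, fun a ha => ?_⟩
    · have h6 := h5 ⟨π, mem_union_left _ hπ⟩
      rwa [if_pos hπ] at h6
    · have h6 := h5 ⟨Q a, mem_union_right _ (mem_image_of_mem _ (mem_range.2 ha))⟩
      rwa [if_neg fun h => (Q a).2.2.2 (T.2 _ h).2.2] at h6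
  choose f hf1 hf2 hf3 hf4 hf5 hf6 using step
  let s : ℕ → {T : Finset k[X] // ∀ π ∈ T, Irreducible π ∧ π.Monic ∧ ℓ ∣ π.natDegree} := fun n =>
    Nat.rec ⟨∅, fun π hπ => absurd hπ (notMem_empty π)⟩
      (fun n T => ⟨insert (f T n) T.1, fun π hπ => by
        rcases mem_insert.1 hπ with rfl | h
        · exact ⟨hf2 T n, hf1 T n, hf4 T n⟩
        · exact T.2 π h⟩) n
  have hs1 : ∀ n, (s (n + 1)).1 = insert (f (s n) n) (s n).1 := fun n => rfl
  have hmono : ∀ n m, n ≤ m → (s n).1 ⊆ (s m).1 := by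
    intro n m hnm
    induction hnm with
    | refl => exact subset_rfl
    | step h ih => exact ih.trans (by rw [hs1]; exact subset_insert _ _)
  have hmem : ∀ n m, n < m → f (s n) n ∈ (s m).1 := fun n m hnm =>
    hmono (n + 1) m hnm (by rw [hs1]; exact mem_insert_self _ _)
  have hnd : ∀ n, ∀ π ∈ (s n).1, f (s n) n ≠ π := by
    intro n π hπ hd
    have h2 : π.natDegree ≤ (s n).1.sup natDegree := le_sup hπ
    have h3 := hf3 (s n) n
    rw [hd] at h3
    omega
  refine ⟨fun n => f (s n) n, ?_, fun j => ⟨hf1 _ _, hf2 _ _, hf4 _ _⟩, ?_, ?_⟩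
  · intro n m h
    rcases lt_trichotomy n m with h1 | h1 | h1
    · exact absurd h.symm (hnd m _ (hmem n m h1))
    · exact h1
    · exact absurd h (hnd n _ (hmem m n h1))
  · intro i j hij
    rcases lt_or_gt_of_ne hij with h1 | h1
    · exact hf5 (s j) j _ (hmem i j h1)
    · have h2 := hf5 (s i) i _ (hmem j i h1)
      rw [S.L_comm] at h2
      exact h2
  · intro P h1 h2 h3
    obtain ⟨a, ha⟩ := hQ ⟨P, h1, h2, h3⟩
    refine ⟨a + 1, fun j hj => ?_⟩
    have h4 := hf6 (s j) j a (by omega)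
    rw [ha] at h4
    have h5 : L ℓ P (f (s j) j) ≠ 0 := by
      have h6 : L ℓ P (f (s j) j) = 1 := h4
      rw [h6]
      exact one_ne_zero
    exact h5

end

/-- the statement for all twists over `k(t)` -/
theorem twists {ℓ : ℕ} (hℓ : ℓ.Prime) {k : Type} [Field k] [Finite k]
    (hl2 : ∃ z : k, z ^ ℓ = -1) (h2 : (2 : k) ≠ 0) (hlk : ℓ ∣ Nat.card k - 1) :
    ∃ D : ℕ → k[X], Function.Injective D ∧ (∀ j, (D j).Monic ∧ Irreducible (D j)) ∧
      ∀ h g : k[X], h.Splits → h.Separable → 2 ≤ h.natDegree → ¬ ℓ ∣ h.natDegree + 1 →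
        ¬ ℓ ∣ g.natDegree → (∀ c, h.IsRoot c → Irreducible (g - C c)) → ∃ j0 : ℕ,
      ∀ (K : Type) [Field K] [Algebra k[X] K] [IsFractionRing k[X] K] (c : k) (M : ℕ)
        (e : ℕ → ℕ), c ≠ 0 → ShaPrimaryTrivial ℓ (C (algebraMap k[X] K
          (C c * ∏ j ∈ Finset.range M, D (j0 + j) ^ e j)) * pencil K h g) k[X] := by
  classical
  haveI : Fact ℓ.Prime := ⟨hℓ⟩
  letI : Fintype k := Fintype.ofFinite k
  have hchar : ringChar k ≠ 2 := by
    intro h
    apply h2
    have := ringChar.Nat.cast_ringChar (R := k)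
    rw [h] at this
    exact_mod_cast this
  have hcard : Nat.card k = Fintype.card k := Nat.card_eq_fintype_card
  rw [hcard] at hlk
  have hq1 : 1 < Fintype.card k := Fintype.one_lt_card
  have hlk0 : ((ℓ : ℕ) : k) ≠ 0 := by
    intro h
    obtain ⟨r, hr⟩ := hlk
    have h1 : ((Fintype.card k - 1 : ℕ) : k) = 0 := by rw [hr, Nat.cast_mul, h, zero_mul]
    rw [Nat.cast_sub hq1.le, FiniteField.cast_card_eq_zero, Nat.cast_one, zero_sub] at h1
    exact one_ne_zero (neg_eq_zero.1 h1)
  obtain ⟨ζ, hζ⟩ : ∃ ζ : k, IsPrimitiveRoot ζ ℓ := by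
    obtain ⟨g, hg⟩ := IsCyclic.exists_generator (α := kˣ)
    have ho : orderOf g = Fintype.card k - 1 := by
      rw [orderOf_eq_card_of_forall_mem_zpowers hg, Nat.card_eq_fintype_card, Fintype.card_units]
    obtain ⟨r, hr⟩ := hlk
    have hr0 : 0 < Fintype.card k - 1 := by omega
    have h1 : IsPrimitiveRoot g (Fintype.card k - 1) := ho ▸ IsPrimitiveRoot.orderOf g
    have h3 : IsPrimitiveRoot (g ^ r) ℓ := by
      exact h1.pow hr0 (by rw [hr, mul_comm])
    exact ⟨((g ^ r : kˣ) : k), IsPrimitiveRoot.coe_units_iff.2 h3⟩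
  have S : SYM0 ℓ k := sym0 hl2 hlk
  have S' : SYM ℓ k := chr hlk hchar S
  obtain ⟨D', hD1', hD2', hD4', hD6⟩ := exists_seq S' hchar
  refine ⟨D', hD1', fun j => ⟨(hD2' j).1, (hD2' j).2.1⟩, ?_⟩
  intro h g hs hsep hd2 hn hg hirr
  have hh0 : h ≠ 0 := hsep.ne_zero
  have hlc : h.leadingCoeff ≠ 0 := leadingCoeff_ne_zero.2 hh0
  obtain ⟨c, hc, hroot, hfac⟩ := split_prod hs hsep
  have hgpos : 0 < g.natDegree := Nat.pos_of_ne_zero fun h => hg (h ▸ dvd_zero _)
  have hglc : g.leadingCoeff ≠ 0 := by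
    intro h
    rw [leadingCoeff_eq_zero.1 h, natDegree_zero] at hgpos
    exact lt_irrefl _ hgpos
  -- the primes at the nodes
  let P : Fin h.natDegree → k[X] := fun a => C g.leadingCoeff⁻¹ * (g - C (c a))
  have hPeq : ∀ a, g - C (c a) = C g.leadingCoeff * P a := by
    intro a
    change _ = C g.leadingCoeff * (C g.leadingCoeff⁻¹ * (g - C (c a)))
    rw [← mul_assoc, ← C_mul, mul_inv_cancel₀ hglc, C_1, one_mul]
  have hlcs : ∀ a, (g - C (c a)).leadingCoeff = g.leadingCoeff := by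
    intro a
    apply leadingCoeff_sub_of_degree_lt
    exact lt_of_le_of_lt degree_C_le (natDegree_pos_iff_degree_pos.1 hgpos)
  have hPm : ∀ a, (P a).Monic := by
    intro a
    change (C g.leadingCoeff⁻¹ * (g - C (c a))).leadingCoeff = 1
    rw [leadingCoeff_mul, leadingCoeff_C, hlcs, inv_mul_cancel₀ hglc]
  have hPi : ∀ a, Irreducible (P a) := by
    intro a
    have h1 : IsUnit (C g.leadingCoeff⁻¹ : k[X]) := isUnit_C.2 (IsUnit.mk0 _ (inv_ne_zero hglc))
    exact (irreducible_isUnit_mul h1).2 (hirr _ (hroot a))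
  have hPinj : Function.Injective P := by
    intro a b hab
    have h1 : g - C (c a) = g - C (c b) := by rw [hPeq a, hPeq b, hab]
    exact hc (C_injective (sub_right_injective h1))
  have hPd : ∀ a, (P a).natDegree = g.natDegree := by
    intro a
    change (C g.leadingCoeff⁻¹ * (g - C (c a))).natDegree = _
    rw [natDegree_C_mul (inv_ne_zero hglc), natDegree_sub_C]
  have hex : ∀ a, ∃ j0 : ℕ, ∀ j, j0 ≤ j → L ℓ (P a) (D' j) ≠ 0 := fun a =>
    hD6 (P a) (hPm a) (hPi a) (by rw [hPd]; exact hg)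
  choose jj hjj using hex
  refine ⟨Finset.univ.sup jj, ?_⟩
  obtain ⟨D, hD⟩ : ∃ D : ℕ → k[X], D = fun j => D' (Finset.univ.sup jj + j) := ⟨_, rfl⟩
  have hD1 : Function.Injective D := by
    intro i j hij
    rw [hD] at hij
    have := hD1' hij
    omega
  have hD2 : ∀ j, (D j).Monic ∧ Irreducible (D j) ∧ ℓ ∣ (D j).natDegree := by
    intro j
    rw [hD]
    exact hD2' _
  have hD3 : ∀ a j, P a ≠ D j := by
    intro a j hj
    apply hg
    rw [← hPd a, hj]
    exact (hD2 j).2.2
  have hD4 : ∀ i j, i ≠ j → L ℓ (D i) (D j) = 0 := by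
    intro i j hij
    rw [hD]
    exact hD4' _ _ (by omega)
  have hD5 : ∀ a j, L ℓ (P a) (D j) ≠ 0 := by
    intro a j
    rw [hD]
    exact hjj a _ ((Finset.le_sup (Finset.mem_univ a)).trans (Nat.le_add_right _ _))
  intro K _ _ _ c0 M e hc0
  have hDe : ∏ j ∈ Finset.range M, D' (Finset.univ.sup jj + j) ^ e j =
      ∏ j ∈ Finset.range M, D j ^ e j := by rw [hD]
  rw [hDe]
  have hinj := IsFractionRing.injective k[X] K
  let J : Finset ℕ := (range M).filter fun j => ¬ ℓ ∣ e j
  let z : k[X] := ∏ j ∈ (range M).filter (fun j => ¬ ¬ ℓ ∣ e j), D j ^ (e j / ℓ)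
  have hz0 : algebraMap k[X] K z ≠ 0 := by
    rw [Ne, map_eq_zero_iff _ hinj]
    exact Finset.prod_ne_zero_iff.2 fun j _ => pow_ne_zero _ (hD2 j).2.1.ne_zero
  have hzp : ∏ j ∈ range M, D j ^ e j = z ^ ℓ * ∏ j ∈ J, D j ^ e j := by
    rw [← Finset.prod_filter_mul_prod_filter_not (range M) (fun j => ¬ ℓ ∣ e j), mul_comm]
    congr 1
    rw [← Finset.prod_pow]
    refine Finset.prod_congr rfl fun j hj => ?_
    have h1 : ℓ ∣ e j := not_not.1 (mem_filter.1 hj).2
    rw [← pow_mul, Nat.div_mul_cancel h1]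
  have key : ShaPrimaryTrivial ℓ (C (algebraMap k[X] K (C c0 * ∏ j ∈ J, D j ^ e j)) *
      pencil K h g) k[X] := by
    by_cases hJ : J.Nonempty
    · haveI : Nonempty J := hJ.coe_sort
      have H : Dta ℓ c g P (fun x : J => D x) (fun x : J => e x) :=
        { S := S
          hl := hl2
          hlk := hlk0
          hm := hd2
          hn := hn
          hc := hc
          hg := hg
          hP := hPeq
          fam := by
            refine ⟨?_, ?_, ?_⟩
            · rintro (x | a)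
              · exact (hD2 x).1
              · exact hPm a
            · rintro (x | a)
              · exact (hD2 x).2.1
              · exact hPi a
            · refine (hD1.comp Subtype.val_injective).sumElim hPinj ?_
              intro x a
              exact (hD3 a x).symm
          ht := fun x => (mem_filter.1 x.2).2
          hTd := fun x => (ZMod.natCast_eq_zero_iff _ _).2 (hD2 x).2.2
          hTT := fun x y hxy => hD4 _ _ fun h => hxy (Subtype.ext h).symm
          hPT := fun a x => hD5 a x }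
      have h1 := H.primary (K := K) hζ hlc hfac hc0
      have h3 : ∏ x : J, D x ^ e x = ∏ j ∈ J, D j ^ e j :=
        Finset.prod_coe_sort J (fun j => D j ^ e j)
      rwa [h3] at h1
    · rw [Finset.not_nonempty_iff_eq_empty.1 hJ, Finset.prod_empty, mul_one]
      have h1 : C (algebraMap k[X] K (C c0)) * pencil K h g = pencil K (C c0 * h) g := by
        unfold pencil
        rw [Polynomial.map_mul, map_C, RingHom.comp_apply, mul_assoc]
      have hdeg : (C c0 * h).natDegree = h.natDegree := natDegree_C_mul hc0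
      rw [h1]
      refine Pool.Agent.Y713.SE.pencil_primary K hℓ hlk0 hζ ((Splits.C _).mul hs) ?_
        (by rw [hdeg]; exact hd2) (by rw [hdeg]; exact hn) hg ?_
      · refine hsep.of_dvd ⟨C (c0⁻¹), ?_⟩
        rw [mul_comm (C c0), mul_assoc, ← C_mul, mul_inv_cancel₀ hc0, C_1, mul_one]
      · intro x hx
        refine hirr x ?_
        rw [IsRoot.def, eval_mul, eval_C] at hx
        exact (mul_eq_zero.1 hx).resolve_left hc0
  have h3 := prim_scale hz0 key
  have h4 : C ((algebraMap k[X] K z) ^ ℓ) * (C (algebraMap k[X] K (C c0 * ∏ j ∈ J, D j ^ e j)) *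
      pencil K h g) = C (algebraMap k[X] K (C c0 * ∏ j ∈ range M, D j ^ e j)) *
        pencil K h g := by
    rw [← mul_assoc, ← C_mul, ← map_pow, ← map_mul, hzp]
    congr 3
    ring
  rwa [h4] at h3

end Pool.Agent.D0H99.FT
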